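import Pool.Agent.Y820.LT.R

/-!
# Romanoff's sum over all sets of primes, with a small power
-/

set_option autoImplicit false
set_option linter.all false

namespace Run7.h870.FT

open Finset
open Pool.Agent.W93.HD
open Pool.Agent.Y820.LT.RR (wD wD_nonneg prod_eq_wD prodD_le log_powD)
open scoped Classical

/-- powers of the logarithm against the eighth root -/
theorem log_pow8 (D : ℕ) (hD : 1 ≤ D) : ∃ C : ℝ, 0 ≤ C ∧ ∀ x : ℕ, 1 ≤ x →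
    Real.log ((8 * x * x + 3 : ℕ) : ℝ) ^ D ≤ C * (x : ℝ) ^ (1 / 8 : ℝ) := by
  obtain ⟨C, hC0, hC⟩ := log_powD 8 (D * 4) (by omega)
  refine ⟨C ^ (1 / 4 : ℝ), by positivity, fun x hx => ?_⟩
  have h1 := hC x hx
  have hx0 : (0 : ℝ) ≤ x := Nat.cast_nonneg x
  have h0 : 0 ≤ Real.log ((8 * x * x + 3 : ℕ) : ℝ) := Real.log_natCast_nonneg _
  rw [pow_mul] at h1
  have h2 : (Real.log ((8 * x * x + 3 : ℕ) : ℝ) ^ D) ^ 4 ≤ (C ^ (1 / 4 : ℝ) * (x : ℝ) ^ (1 / 8 : ℝ)) ^ 4 := by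
    refine h1.trans (le_of_eq ?_)
    rw [mul_pow, ← Real.rpow_natCast (C ^ (1 / 4 : ℝ)), ← Real.rpow_mul hC0, ← Real.rpow_natCast ((x : ℝ) ^ (1 / 8 : ℝ)), ← Real.rpow_mul hx0, Real.sqrt_eq_rpow]
    norm_num
  exact le_of_pow_le_pow_left₀ (by norm_num) (by positivity) h2

/-- **the sum over all sets of primes** -/
theorem rs (D : ℕ) (hD : 1 ≤ D) : ∃ C : ℝ, 0 ≤ C ∧ ∀ K : ℕ, 1 ≤ K → ∀ P : Finset ℕ, (∀ p ∈ P, p.Prime) → P.card ≤ 8 * K + 3 →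
    ∑ T ∈ P.powerset, wD D T * ((oT 2 T : ℝ) ^ (-(1 / 4) : ℝ) + (K : ℝ) ^ (-(1 / 4) : ℝ)) ≤ C := by
  obtain ⟨C, hC1, hC⟩ := mert_prod
  obtain ⟨Q, hQ0, hQ⟩ := log_pow8 D hD
  obtain ⟨C', hC'⟩ : ∃ C' : ℝ, C' = (3 * C) ^ D * Q := ⟨_, rfl⟩
  have hC'0 : 0 ≤ C' := by rw [hC']; positivity
  have hU : ∀ x : ℕ, 1 ≤ x → ∀ S : Finset ℕ, (∀ p ∈ S, p.Prime) → S.card ≤ 8 * x * x + 3 →
      ∏ p ∈ S, (1 + (D : ℝ) / (p : ℝ)) ≤ C' * (x : ℝ) ^ (1 / 8 : ℝ) := by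
    intro x hx S hS hcard
    have h1 := prod_U C (by linarith) hC S hS (8 * x * x + 3) (by omega) hcard
    have h2 : (1 : ℝ) ≤ ∏ p ∈ S, (1 + 1 / (p : ℝ)) := one_le_prod_one_add S
    refine (prodD_le D S).trans ((pow_le_pow_left₀ (by linarith) h1 D).trans ?_)
    have h3 : (3 * C) ^ D * Real.log ((8 * x * x + 3 : ℕ) : ℝ) ^ D ≤ (3 * C) ^ D * (Q * (x : ℝ) ^ (1 / 8 : ℝ)) :=
      mul_le_mul_of_nonneg_left (hQ x hx) (by positivity)
    have e1 : (3 * C * Real.log ((8 * x * x + 3 : ℕ) : ℝ)) ^ D = (3 * C) ^ D * Real.log ((8 * x * x + 3 : ℕ) : ℝ) ^ D := by rw [mul_pow]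
    have e2 : C' * (x : ℝ) ^ (1 / 8 : ℝ) = (3 * C) ^ D * (Q * (x : ℝ) ^ (1 / 8 : ℝ)) := by rw [hC']; ring
    rw [e1, e2]
    exact h3
  obtain ⟨u, hu⟩ : ∃ u : ℝ, u = (2 : ℝ) ^ (-(1 / 8) : ℝ) := ⟨_, rfl⟩
  have hu0 : 0 < u := by rw [hu]; positivity
  have hu1 : u < 1 := by rw [hu]; exact Real.rpow_lt_one_of_one_lt_of_neg (by norm_num) (by norm_num)
  have hgeo : ∀ n : ℕ, ∑ j ∈ range n, u ^ j ≤ (1 - u)⁻¹ := by
    intro n
    have h1 := Summable.sum_le_tsum (range n) (fun j _ => (pow_pos hu0 j).le) (summable_geometric_of_lt_one hu0.le hu1)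
    rwa [tsum_geometric_of_lt_one hu0.le hu1] at h1
  have hug : 0 < (1 - u)⁻¹ := inv_pos.2 (by linarith)
  refine ⟨2 * C' + 2 * C' * (1 - u)⁻¹, by positivity, fun K hK P hP hPc => ?_⟩
  have hK0 : (0 : ℝ) < K := by exact_mod_cast hK
  have hK1 : (1 : ℝ) ≤ K := by exact_mod_cast hK
  -- the partial sums
  have hA : ∀ x : ℕ, 1 ≤ x → ∑ T ∈ P.powerset.filter (fun T => 1 ≤ oT 2 T ∧ oT 2 T ≤ x), wD D T ≤ C' * (x : ℝ) ^ (1 / 8 : ℝ) := by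
    intro x hx
    obtain ⟨U, hUd⟩ : ∃ U, U = (Icc 1 x).biUnion (fun o => (2 ^ (2 * o) - 1).primeFactors) := ⟨_, rfl⟩
    have h1 : ∑ T ∈ P.powerset.filter (fun T => 1 ≤ oT 2 T ∧ oT 2 T ≤ x), wD D T ≤ ∑ T ∈ U.powerset, wD D T := by
      apply sum_le_sum_of_subset_of_nonneg
      · intro T hT
        rw [mem_filter, mem_powerset] at hT
        rw [mem_powerset]
        intro p hp
        rw [hUd, mem_biUnion]
        refine ⟨oT 2 T, mem_Icc.2 hT.2, ?_⟩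
        obtain ⟨s, hs1, hs2⟩ : ∃ s, 1 ≤ s ∧ ∀ p ∈ T, p ∣ 2 ^ (2 * s) - 1 := by
          by_contra hcon
          have : oT 2 T = 0 := by
            unfold oT
            have hempty : {s : ℕ | 1 ≤ s ∧ ∀ p ∈ T, p ∣ 2 ^ (2 * s) - 1} = ∅ := by
              rw [Set.eq_empty_iff_forall_notMem]
              intro s hs
              exact hcon ⟨s, hs⟩
            rw [hempty]
            exact Nat.sInf_empty
          omega
        have h3 := (oT_mem 2 T s hs1 hs2).2 p hp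
        rw [Nat.mem_primeFactors]
        refine ⟨hP p (hT.1 hp), h3, ?_⟩
        have : 2 ^ 1 ≤ 2 ^ (2 * oT 2 T) := Nat.pow_le_pow_right (by norm_num) (by omega)
        omega
      · intro T _ _
        exact wD_nonneg D T
    rw [← prod_eq_wD D] at h1
    refine h1.trans (hU x hx U ?_ ?_)
    · intro p hp
      rw [hUd] at hp
      obtain ⟨o, _, hp⟩ := mem_biUnion.1 hp
      exact Nat.prime_of_mem_primeFactors hp
    · have h2 : U.card ≤ ∑ o ∈ Icc 1 x, 2 * 2 * x := by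
        rw [hUd]
        refine card_biUnion_le.trans (sum_le_sum fun o ho => ?_)
        rw [mem_Icc] at ho
        exact (card_pf_le 2 o le_rfl ho.1).trans (Nat.mul_le_mul_left _ ho.2)
      rw [sum_const, Nat.card_Icc, smul_eq_mul] at h2
      have : (x + 1 - 1) * (2 * 2 * x) = 4 * x * x := by rw [Nat.add_sub_cancel]; ring
      have h3 : 4 * x * x ≤ 8 * x * x := by
        apply Nat.mul_le_mul_right
        apply Nat.mul_le_mul_right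
        omega
      omega
  -- one set
  have hK4 : 0 ≤ (K : ℝ) ^ (-(1 / 4) : ℝ) := by positivity
  have hT : ∀ T ∈ P.powerset, wD D T * ((oT 2 T : ℝ) ^ (-(1 / 4) : ℝ) + (K : ℝ) ^ (-(1 / 4) : ℝ)) ≤
      2 * (K : ℝ) ^ (-(1 / 4) : ℝ) * wD D T + ∑ j ∈ range K, (if (1 ≤ oT 2 T ∧ oT 2 T ≤ 2 ^ (j + 1)) then ((2 : ℝ) ^ j) ^ (-(1 / 4) : ℝ) * wD D T else 0) := by
    intro T _
    have hw := wD_nonneg D T
    have hnn : ∀ j ∈ range K, 0 ≤ (if (1 ≤ oT 2 T ∧ oT 2 T ≤ 2 ^ (j + 1)) then ((2 : ℝ) ^ j) ^ (-(1 / 4) : ℝ) * wD D T else 0) := by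
      intro j _
      split_ifs <;> positivity
    have hs := sum_nonneg hnn
    have e0 : wD D T * ((oT 2 T : ℝ) ^ (-(1 / 4) : ℝ) + (K : ℝ) ^ (-(1 / 4) : ℝ)) = (oT 2 T : ℝ) ^ (-(1 / 4) : ℝ) * wD D T + (K : ℝ) ^ (-(1 / 4) : ℝ) * wD D T := by ring
    rw [e0]
    have hkw : 0 ≤ (K : ℝ) ^ (-(1 / 4) : ℝ) * wD D T := mul_nonneg hK4 hw
    rcases Nat.eq_zero_or_pos (oT 2 T) with h0 | h0
    · have e1 : (oT 2 T : ℝ) ^ (-(1 / 4) : ℝ) = 0 := by rw [h0, Nat.cast_zero, Real.zero_rpow (by norm_num)]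
      rw [e1]
      linarith
    · rcases le_or_gt (oT 2 T) K with hk | hk
      · have h1 : Nat.log 2 (oT 2 T) ∈ range K := by
          rw [mem_range]
          have := Nat.log_lt_self 2 h0.ne'
          omega
        have h2 := single_le_sum hnn h1
        have h3 : oT 2 T ≤ 2 ^ (Nat.log 2 (oT 2 T) + 1) := (Nat.lt_pow_succ_log_self (by norm_num) _).le
        rw [if_pos ⟨h0, h3⟩] at h2
        have h4 : (oT 2 T : ℝ) ^ (-(1 / 4) : ℝ) ≤ ((2 : ℝ) ^ Nat.log 2 (oT 2 T)) ^ (-(1 / 4) : ℝ) := by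
          apply Real.rpow_le_rpow_of_nonpos (by positivity) _ (by norm_num)
          exact_mod_cast Nat.pow_log_le_self 2 h0.ne'
        have h5 := mul_le_mul_of_nonneg_right h4 hw
        linarith
      · have h4 : (oT 2 T : ℝ) ^ (-(1 / 4) : ℝ) ≤ (K : ℝ) ^ (-(1 / 4) : ℝ) := by
          apply Real.rpow_le_rpow_of_nonpos hK0 _ (by norm_num)
          exact_mod_cast hk.le
        have h5 := mul_le_mul_of_nonneg_right h4 hw
        linarith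
  refine (sum_le_sum hT).trans ?_
  rw [sum_add_distrib, ← mul_sum, sum_comm]
  have hpart2 : 2 * (K : ℝ) ^ (-(1 / 4) : ℝ) * ∑ T ∈ P.powerset, wD D T ≤ 2 * C' := by
    rw [← prod_eq_wD D]
    have h1 := hU K hK P hP (by
      refine hPc.trans ?_
      have : 8 * K * 1 ≤ 8 * K * K := Nat.mul_le_mul_left _ hK
      omega)
    have h2 : (K : ℝ) ^ (-(1 / 4) : ℝ) * (K : ℝ) ^ (1 / 8 : ℝ) ≤ 1 := by
      rw [← Real.rpow_add hK0]
      exact Real.rpow_le_one_of_one_le_of_nonpos hK1 (by norm_num)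
    calc 2 * (K : ℝ) ^ (-(1 / 4) : ℝ) * ∏ p ∈ P, (1 + (D : ℝ) / (p : ℝ)) ≤ 2 * (K : ℝ) ^ (-(1 / 4) : ℝ) * (C' * (K : ℝ) ^ (1 / 8 : ℝ)) :=
          mul_le_mul_of_nonneg_left h1 (by positivity)
      _ = 2 * C' * ((K : ℝ) ^ (-(1 / 4) : ℝ) * (K : ℝ) ^ (1 / 8 : ℝ)) := by ring
      _ ≤ 2 * C' * 1 := mul_le_mul_of_nonneg_left h2 (by positivity)
      _ = 2 * C' := by ring
  have hpart1 : ∑ j ∈ range K, ∑ T ∈ P.powerset, (if (1 ≤ oT 2 T ∧ oT 2 T ≤ 2 ^ (j + 1)) then ((2 : ℝ) ^ j) ^ (-(1 / 4) : ℝ) * wD D T else 0) ≤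
      2 * C' * (1 - u)⁻¹ := by
    have h1 : ∀ j ∈ range K, ∑ T ∈ P.powerset, (if (1 ≤ oT 2 T ∧ oT 2 T ≤ 2 ^ (j + 1)) then ((2 : ℝ) ^ j) ^ (-(1 / 4) : ℝ) * wD D T else 0) ≤
        2 * C' * u ^ j := by
      intro j _
      rw [← sum_filter, ← mul_sum]
      have h2 := hA (2 ^ (j + 1)) Nat.one_le_two_pow
      push_cast at h2
      have h3 : ((2 : ℝ) ^ (j + 1)) ^ (1 / 8 : ℝ) ≤ 2 * ((2 : ℝ) ^ j) ^ (1 / 8 : ℝ) := by
        rw [pow_succ, Real.mul_rpow (by positivity) (by norm_num)]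
        have h4 : (2 : ℝ) ^ (1 / 8 : ℝ) ≤ 2 := by
          calc (2 : ℝ) ^ (1 / 8 : ℝ) ≤ (2 : ℝ) ^ (1 : ℝ) := Real.rpow_le_rpow_of_exponent_le (by norm_num) (by norm_num)
            _ = 2 := Real.rpow_one 2
        have h5 : 0 ≤ ((2 : ℝ) ^ j) ^ (1 / 8 : ℝ) := by positivity
        nlinarith
      have h6 : ((2 : ℝ) ^ j) ^ (-(1 / 4) : ℝ) * ((2 : ℝ) ^ j) ^ (1 / 8 : ℝ) = u ^ j := by
        rw [← Real.rpow_add (by positivity), hu, ← Real.rpow_natCast, ← Real.rpow_natCast, ← Real.rpow_mul (by norm_num), ← Real.rpow_mul (by norm_num)]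
        congr 1
        ring
      calc _ ≤ ((2 : ℝ) ^ j) ^ (-(1 / 4) : ℝ) * (C' * (2 * ((2 : ℝ) ^ j) ^ (1 / 8 : ℝ))) := by
            apply mul_le_mul_of_nonneg_left _ (by positivity)
            exact h2.trans (mul_le_mul_of_nonneg_left h3 hC'0)
        _ = 2 * C' * (((2 : ℝ) ^ j) ^ (-(1 / 4) : ℝ) * ((2 : ℝ) ^ j) ^ (1 / 8 : ℝ)) := by ring
        _ = 2 * C' * u ^ j := by rw [h6]
    refine (sum_le_sum h1).trans ?_
    rw [← mul_sum]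
    exact mul_le_mul_of_nonneg_left (hgeo K) (by positivity)
  linarith

end Run7.h870.FT
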