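import Pool.Agent.Run7.h870.FT.Bg
import Pool.Agent.Run7.h870.FT.Rs

/-!
# The sum of the weights over the pairs
-/

set_option autoImplicit false
set_option linter.all false

namespace Run7.h870.FT

open Finset
open Pool.Agent.W93.HD (oT oT_mem gg)
open Pool.Agent.H646 (rat)
open Run7.h870.FS (box mem_box rat_gg)
open Pool.Agent.Y820.LT.RR (wD wD_nonneg gg_pow_split)
open Pool.Agent.TH894.SM (card_pf)
open scoped Classical

/-- odd primes have a common exponent -/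
theorem ex_s (T : Finset ℕ) (hT : ∀ p ∈ T, p.Prime ∧ 2 < p) : ∃ s, 1 ≤ s ∧ ∀ p ∈ T, p ∣ 2 ^ (2 * s) - 1 := by
  refine ⟨∏ p ∈ T, Nat.totient p, ?_, fun p hp => ?_⟩
  · apply Nat.one_le_iff_ne_zero.2
    rw [prod_ne_zero_iff]
    intro p hp
    exact (Nat.totient_pos.2 (hT p hp).1.pos).ne'
  · obtain ⟨k, hk⟩ := dvd_prod_of_mem Nat.totient hp
    have h1 : Nat.Coprime 2 p := (Nat.coprime_primes Nat.prime_two (hT p hp).1).2 (hT p hp).2.ne
    have h2 : 2 ^ (2 * ∏ q ∈ T, Nat.totient q) ≡ 1 [MOD p] := by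
      rw [hk, show 2 * (Nat.totient p * k) = Nat.totient p * (2 * k) by ring, pow_mul]
      have h3 := (Nat.ModEq.pow_totient h1).pow (2 * k)
      rwa [one_pow] at h3
    exact (Nat.modEq_iff_dvd' Nat.one_le_two_pow).1 h2.symm

/-- **the number of pairs with the divisibility** -/
theorem cT_bound : ∃ C : ℝ, 0 < C ∧ ∀ M : ℕ, 1 ≤ M → ∀ T : Finset ℕ, (∀ p ∈ T, p.Prime ∧ 2 < p) →
    (cT M T : ℝ) ≤ C * (M ^ 6 * ((oT 2 T : ℝ) ^ (-(1 / 4) : ℝ) + (M : ℝ) ^ (-(1 / 4) : ℝ))) := by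
  obtain ⟨C1, hC1, h1⟩ := small
  obtain ⟨C2, hC2, h2⟩ := big
  refine ⟨(C1 + C2) ^ (1 / 4 : ℝ), by positivity, fun M hM T hT => ?_⟩
  obtain ⟨s, hs1, hs2⟩ := ex_s T hT
  obtain ⟨ho, hTd⟩ := oT_mem 2 T s hs1 hs2
  have hM0 : (0 : ℝ) < M := by exact_mod_cast hM
  have ho0 : (0 : ℝ) < oT 2 T := by exact_mod_cast ho
  have h3 : (cT M T : ℝ) ^ 4 ≤ (C1 + C2) * (M ^ 24 * (1 / (oT 2 T : ℝ) + 1 / M)) := by
    have h5 : 0 ≤ (M : ℝ) ^ 24 * (1 / (oT 2 T : ℝ) + 1 / M) := by positivity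
    rw [add_mul]
    have h6 := mul_nonneg hC1.le h5
    have h7 := mul_nonneg hC2.le h5
    rcases le_or_gt ((2 * oT 2 T) ^ 3) (M ^ 2) with h4 | h4
    · have := h1 M hM T hT hTd ho h4
      linarith
    · have := h2 M hM T hT h4
      linarith
  obtain ⟨a, ha⟩ : ∃ a : ℝ, a = (oT 2 T : ℝ) ^ (-(1 / 4) : ℝ) := ⟨_, rfl⟩
  obtain ⟨b, hb⟩ : ∃ b : ℝ, b = (M : ℝ) ^ (-(1 / 4) : ℝ) := ⟨_, rfl⟩
  have ha0 : 0 ≤ a := by rw [ha]; positivity
  have hb0 : 0 ≤ b := by rw [hb]; positivity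
  have ha4 : a ^ 4 = 1 / (oT 2 T : ℝ) := by
    have e : (-(1 / 4) : ℝ) * ((4 : ℕ) : ℝ) = -1 := by norm_num
    rw [ha, ← Real.rpow_natCast, ← Real.rpow_mul ho0.le, e, Real.rpow_neg_one, one_div]
  have hb4 : b ^ 4 = 1 / (M : ℝ) := by
    have e : (-(1 / 4) : ℝ) * ((4 : ℕ) : ℝ) = -1 := by norm_num
    rw [hb, ← Real.rpow_natCast, ← Real.rpow_mul hM0.le, e, Real.rpow_neg_one, one_div]
  rw [← ha, ← hb]
  rw [← ha4, ← hb4] at h3
  have hab : a ^ 4 + b ^ 4 ≤ (a + b) ^ 4 := by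
    have : (a + b) ^ 4 = a ^ 4 + b ^ 4 + (4 * a ^ 3 * b + 6 * a ^ 2 * b ^ 2 + 4 * a * b ^ 3) := by ring
    rw [this]
    have : 0 ≤ 4 * a ^ 3 * b + 6 * a ^ 2 * b ^ 2 + 4 * a * b ^ 3 := by positivity
    linarith
  have h4 : (cT M T : ℝ) ^ 4 ≤ ((C1 + C2) ^ (1 / 4 : ℝ) * (M ^ 6 * (a + b))) ^ 4 := by
    refine h3.trans ?_
    rw [mul_pow, ← Real.rpow_natCast ((C1 + C2) ^ (1 / 4 : ℝ)), ← Real.rpow_mul (by positivity)]
    have e1 : (1 / 4 : ℝ) * ((4 : ℕ) : ℝ) = 1 := by norm_num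
    rw [e1, Real.rpow_one]
    apply mul_le_mul_of_nonneg_left _ (by positivity)
    rw [mul_pow, ← pow_mul]
    exact mul_le_mul_of_nonneg_left hab (by positivity)
  exact le_of_pow_le_pow_left₀ (by norm_num) (by positivity) h4

/-- the weight of the difference -/
noncomputable def G3 (B : ℕ) (d : ℤ) : ℝ := if d = 0 then 0 else rat d.natAbs ^ B

theorem G3_nonneg (B : ℕ) (d : ℤ) : 0 ≤ G3 B d := by
  unfold G3
  split_ifs
  · exact le_rfl
  · apply pow_nonneg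
    unfold rat
    positivity

theorem V3_le (M : ℕ) (q) (hq : q ∈ box M) : V3 q ≤ 3 * 2 ^ M := by
  obtain ⟨x, y, z, w⟩ := q
  rw [mem_box] at hq
  unfold V3
  simp only
  have e1 : 2 ^ x ≤ 2 ^ M := Nat.pow_le_pow_right (by norm_num) hq.1.2
  have e2 : 2 ^ y ≤ 2 ^ M := Nat.pow_le_pow_right (by norm_num) hq.2.1.2
  have e3 : 2 ^ z ≤ 2 ^ M := Nat.pow_le_pow_right (by norm_num) hq.2.2.1.2
  omega

/-- **the sum of the weights over the pairs** -/
theorem pairs3 (B : ℕ) : ∃ C : ℝ, 0 < C ∧ ∀ M : ℕ, 1 ≤ M → ∑ r ∈ PP3 M, G3 B (D3 r) ≤ C * M ^ 6 := by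
  obtain ⟨κ, hκ⟩ : ∃ κ, κ = 4 * B := ⟨_, rfl⟩
  obtain ⟨C1, hC1, h1⟩ := cT_bound
  obtain ⟨C2, hC2, h2⟩ := rs (2 ^ κ) Nat.one_le_two_pow
  obtain ⟨E, hE⟩ : ∃ E : ℝ, E = (1 + ((2 ^ κ : ℕ) : ℝ)) ^ 2 * Real.exp ((2 ^ κ : ℕ) : ℝ) := ⟨_, rfl⟩
  have hE0 : 0 < E := by rw [hE]; positivity
  refine ⟨E * (C1 * C2) + 1, by positivity, fun M hM => ?_⟩
  have hM0 : (0 : ℝ) < M := by exact_mod_cast hM
  obtain ⟨Y, hY⟩ : ∃ Y, Y = 8 * M := ⟨_, rfl⟩
  obtain ⟨P, hP⟩ : ∃ P, P = (Icc 1 Y).filter (fun p => p.Prime ∧ 2 < p) := ⟨_, rfl⟩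
  have hpos : ∀ r ∈ PP3 M, G3 B (D3 r) ≤ E * ∑ T ∈ P.powerset, (if (∀ p ∈ T, (p : ℤ) ∣ D3 r) then wD (2 ^ κ) T else 0) := by
    intro r hr
    have hnn : ∀ T ∈ P.powerset, 0 ≤ (if (∀ p ∈ T, (p : ℤ) ∣ D3 r) then wD (2 ^ κ) T else 0) := by
      intro T _
      split_ifs
      · exact wD_nonneg _ T
      · exact le_rfl
    unfold PP3 at hr
    rw [mem_filter, mem_product] at hr
    unfold G3
    split_ifs with hd
    · exact mul_nonneg hE0.le (sum_nonneg hnn)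
    · have hn1 : 1 ≤ (D3 r).natAbs := by
        have := Int.natAbs_pos.2 hd
        omega
      have hrat : rat (D3 r).natAbs ^ B ≤ gg (D3 r).natAbs ^ κ := by
        have h5 : 0 ≤ rat (D3 r).natAbs := by
          unfold rat
          positivity
        calc rat (D3 r).natAbs ^ B ≤ (gg (D3 r).natAbs ^ 4) ^ B := pow_le_pow_left₀ h5 (rat_gg _ hn1) _
          _ = gg (D3 r).natAbs ^ κ := by rw [← pow_mul, hκ]
      refine hrat.trans ?_
      have hcard : (D3 r).natAbs.primeFactors.card ≤ Y := by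
        apply card_pf _ _ hn1
        have v1 := V3_le M r.1 hr.1.1
        have v2 := V3_le M r.2 hr.1.2
        have v3 : (D3 r).natAbs ≤ 3 * 2 ^ M := by
          unfold D3
          omega
        refine v3.trans ?_
        have v4 : 3 * 2 ^ M ≤ 2 ^ (M + 2) := by
          rw [pow_add]
          omega
        exact v4.trans (Nat.pow_le_pow_right (by norm_num) (by omega))
      have h3 := gg_pow_split κ 2 Y (D3 r).natAbs (by omega) hcard
      rw [← hE] at h3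
      refine h3.trans ?_
      apply mul_le_mul_of_nonneg_left _ hE0.le
      rw [← sum_filter]
      apply sum_le_sum_of_subset_of_nonneg
      · intro T hT
        rw [mem_powerset] at hT
        rw [mem_filter, mem_powerset]
        constructor
        · intro p hp
          have := hT hp
          rw [mem_filter] at this
          rw [hP, mem_filter, mem_Icc]
          have hpp := Nat.prime_of_mem_primeFactors this.1
          exact ⟨⟨hpp.one_le, this.2.2⟩, hpp, this.2.1⟩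
        · intro p hp
          have := hT hp
          rw [mem_filter] at this
          exact Int.natCast_dvd.2 (Nat.dvd_of_mem_primeFactors this.1)
      · intro T _ _
        exact wD_nonneg _ T
  refine (sum_le_sum hpos).trans ?_
  rw [← mul_sum, sum_comm]
  have hcol : ∀ T ∈ P.powerset, ∑ r ∈ PP3 M, (if (∀ p ∈ T, (p : ℤ) ∣ D3 r) then wD (2 ^ κ) T else 0) ≤
      C1 * M ^ 6 * (wD (2 ^ κ) T * ((oT 2 T : ℝ) ^ (-(1 / 4) : ℝ) + (M : ℝ) ^ (-(1 / 4) : ℝ))) := by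
    intro T hT
    rw [mem_powerset] at hT
    rw [← sum_filter, sum_const, nsmul_eq_mul]
    have h3 := h1 M hM T (fun p hp => by
      have := hT hp
      rw [hP, mem_filter] at this
      exact this.2)
    unfold cT at h3
    have h4 := mul_le_mul_of_nonneg_right h3 (wD_nonneg (2 ^ κ) T)
    refine h4.trans (le_of_eq (by ring))
  have h3 := h2 M hM P (fun p hp => by
    rw [hP, mem_filter] at hp
    exact hp.2.1) (by
    have h4 : P.card ≤ (Icc 1 Y).card := by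
      rw [hP]
      exact card_filter_le _ _
    rw [Nat.card_Icc] at h4
    omega)
  have h4 : ∑ T ∈ P.powerset, ∑ r ∈ PP3 M, (if (∀ p ∈ T, (p : ℤ) ∣ D3 r) then wD (2 ^ κ) T else 0) ≤ C1 * M ^ 6 * C2 := by
    refine (sum_le_sum hcol).trans ?_
    rw [← mul_sum]
    exact mul_le_mul_of_nonneg_left h3 (by positivity)
  calc _ ≤ E * (C1 * M ^ 6 * C2) := mul_le_mul_of_nonneg_left h4 hE0.le
    _ = E * (C1 * C2) * M ^ 6 := by ring
    _ ≤ (E * (C1 * C2) + 1) * M ^ 6 := by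
        apply mul_le_mul_of_nonneg_right _ (by positivity)
        linarith

/-- sums of two powers of two -/
theorem pair_inj (a b c d : ℕ) (h : 2 ^ a + 2 ^ b = 2 ^ c + 2 ^ d) (ho : a ≤ b ↔ c ≤ d) : a = c ∧ b = d := by
  have key2 : ∀ a b c d : ℕ, a ≤ b → c ≤ d → 2 ^ a + 2 ^ b = 2 ^ c + 2 ^ d → b ≤ d := by
    intro a b c d hab hcd he
    by_contra hcon
    have h5 : d + 1 ≤ b := by omega
    have h6 : 2 ^ c ≤ 2 ^ d := Nat.pow_le_pow_right (by norm_num) hcd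
    have h7 : 2 ^ (d + 1) ≤ 2 ^ b := Nat.pow_le_pow_right (by norm_num) h5
    have h8 : 0 < 2 ^ a := by positivity
    rw [pow_succ] at h7
    omega
  have key3 : ∀ a b c d : ℕ, a ≤ b → c ≤ d → 2 ^ a + 2 ^ b = 2 ^ c + 2 ^ d → a = c ∧ b = d := by
    intro a b c d hab hcd he
    have h5 : b = d := le_antisymm (key2 a b c d hab hcd he) (key2 c d a b hcd hab he.symm)
    refine ⟨?_, h5⟩
    rw [h5] at he
    exact Nat.pow_right_injective le_rfl (by omega : 2 ^ a = 2 ^ c)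
  by_cases hab : a ≤ b
  · exact key3 a b c d hab (ho.1 hab) h
  · have hcd : ¬ c ≤ d := fun h => hab (ho.2 h)
    have := key3 b a d c (by omega) (by omega) (by omega)
    exact ⟨this.2, this.1⟩

theorem max_le3 (x y z a b c : ℕ) (h : 2 ^ x + 2 ^ y + 2 ^ z = 2 ^ a + 2 ^ b + 2 ^ c)
    (h4 : 2 ^ (max x (max y z) + 1) ≤ 2 ^ x + 2 ^ y + 2 ^ z → 2 ^ (max a (max b c) + 1) ≤ 2 ^ a + 2 ^ b + 2 ^ c) : max a (max b c) ≤ max x (max y z) := by
  by_contra hcon
  obtain ⟨m, hm⟩ : ∃ m, m = max x (max y z) := ⟨_, rfl⟩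
  obtain ⟨m', hm'⟩ : ∃ m', m' = max a (max b c) := ⟨_, rfl⟩
  rw [← hm, ← hm'] at hcon h4
  have a1 : 2 ^ x ≤ 2 ^ m := Nat.pow_le_pow_right (by norm_num) (by omega)
  have a2 : 2 ^ y ≤ 2 ^ m := Nat.pow_le_pow_right (by norm_num) (by omega)
  have a3 : 2 ^ z ≤ 2 ^ m := Nat.pow_le_pow_right (by norm_num) (by omega)
  have p1 : 0 < 2 ^ a := by positivity
  have p2 : 0 < 2 ^ b := by positivity
  have p3 : 0 < 2 ^ c := by positivity
  have p4 : 0 < 2 ^ m := by positivity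
  have a4 : 2 ^ m' ≤ 2 ^ a + 2 ^ b + 2 ^ c := by
    have h5 : m' = a ∨ m' = b ∨ m' = c := by omega
    rcases h5 with h5 | h5 | h5 <;> rw [h5] <;> omega
  have a5 : 2 ^ (m + 1) ≤ 2 ^ m' := Nat.pow_le_pow_right (by norm_num) (by omega)
  have a6 := h4 (by omega)
  have a7 : 2 ^ (m + 1 + 1) ≤ 2 ^ (m' + 1) := Nat.pow_le_pow_right (by norm_num) (by omega)
  rw [pow_succ, pow_succ] at a7
  omega

theorem tri_inj (x y z a b c : ℕ) (h : 2 ^ x + 2 ^ y + 2 ^ z = 2 ^ a + 2 ^ b + 2 ^ c) (h1 : x ≤ y ↔ a ≤ b) (h2 : y ≤ z ↔ b ≤ c) (h3 : x ≤ z ↔ a ≤ c)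
    (h4 : 2 ^ (max x (max y z) + 1) ≤ 2 ^ x + 2 ^ y + 2 ^ z ↔ 2 ^ (max a (max b c) + 1) ≤ 2 ^ a + 2 ^ b + 2 ^ c) : x = a ∧ y = b ∧ z = c := by
  have hm : max x (max y z) = max a (max b c) := le_antisymm (max_le3 a b c x y z h.symm h4.2) (max_le3 x y z a b c h h4.1)
  by_cases c2 : y ≤ z
  · by_cases c3 : x ≤ z
    · have d2 := h2.1 c2
      have d3 := h3.1 c3
      have e : z = c := by omega
      rw [e] at h
      have := pair_inj x y a b (by omega) h1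
      omega
    · have d2 := h2.1 c2
      have d3 : ¬ a ≤ c := fun h => c3 (h3.2 h)
      have e : x = a := by omega
      rw [e] at h
      have := pair_inj y z b c (by omega) h2
      omega
  · have d2 : ¬ b ≤ c := fun h => c2 (h2.2 h)
    by_cases c1 : x ≤ y
    · have d1 := h1.1 c1
      have e : y = b := by omega
      rw [e] at h
      have := pair_inj x z a c (by omega) h3
      omega
    · have d1 : ¬ a ≤ b := fun h => c1 (h1.2 h)
      have e : x = a := by omega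
      rw [e] at h
      have := pair_inj y z b c (by omega) h2
      omega

/-- the pattern of a triple -/
noncomputable def pat (q : ℕ × ℕ × ℕ × ℕ) : (Bool × Bool) × (Bool × Bool) :=
  ((decide (q.1 ≤ q.2.1), decide (q.2.1 ≤ q.2.2.1)), (decide (q.1 ≤ q.2.2.1), decide (2 ^ (max q.1 (max q.2.1 q.2.2.1) + 1) ≤ 2 ^ q.1 + 2 ^ q.2.1 + 2 ^ q.2.2.1)))

/-- the pairs with the same sum of powers -/
theorem zero3 (M : ℕ) : ((PP3 M).filter (fun r => D3 r = 0)).card ≤ 16 * M ^ 4 := by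
  have h1 : ((PP3 M).filter (fun r => D3 r = 0)).card ≤ (box M ×ˢ (univ : Finset ((Bool × Bool) × (Bool × Bool)))).card := by
    apply card_le_card_of_injOn (fun r : (ℕ × ℕ × ℕ × ℕ) × (ℕ × ℕ × ℕ × ℕ) => (r.1, pat r.2))
    · intro r hr
      rw [mem_coe, mem_filter] at hr
      obtain ⟨hr, _⟩ := hr
      unfold PP3 at hr
      rw [mem_filter, mem_product] at hr
      rw [mem_coe, mem_product]
      exact ⟨hr.1.1, mem_univ _⟩
    · intro r hr r1 hr1 hrr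
      obtain ⟨q, ⟨x, y, z, w⟩⟩ := r
      obtain ⟨q1, ⟨a, b, c, d⟩⟩ := r1
      rw [mem_coe, mem_filter] at hr hr1
      obtain ⟨hr, hD⟩ := hr
      obtain ⟨hr1, hD1⟩ := hr1
      unfold PP3 at hr hr1
      rw [mem_filter, mem_product] at hr hr1
      have n1 := hr.2
      have n2 := hr1.2
      unfold D3 at hD hD1
      simp only [Prod.mk.injEq] at hrr
      obtain ⟨e1, e2⟩ := hrr
      subst e1
      simp only at hD hD1 n1 n2
      rw [n1] at n2
      have v : V3 (x, y, z, w) = V3 (a, b, c, d) := by omega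
      unfold V3 at v
      unfold pat at e2
      simp only [Prod.mk.injEq, decide_eq_decide] at e2 v
      obtain ⟨⟨p1, p2⟩, p3, p4⟩ := e2
      obtain ⟨s1, s2, s3⟩ := tri_inj x y z a b c v p1 p2 p3 p4
      subst s1 s2 s3
      unfold nn4 at n2
      simp only at n2
      have n3 : w ^ 2 = d ^ 2 := by omega
      have n4 : w = d := Nat.pow_left_injective (by norm_num : 2 ≠ 0) n3
      rw [n4]
  refine h1.trans (le_of_eq ?_)
  rw [card_product]
  unfold Run7.h870.FS.box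
  rw [card_product, card_product, card_product, Nat.card_Icc, Nat.add_sub_cancel]
  have : (univ : Finset ((Bool × Bool) × (Bool × Bool))).card = 16 := by rfl
  rw [this]
  ring

end Run7.h870.FT
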