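import Pool.Agent.Run7.h870.FT.Pr2

/-!
# The pairs whose difference is divisible by all primes of a set: large orders
-/

set_option autoImplicit false
set_option linter.all false

namespace Run7.h870.FT

open Finset
open Pool.Agent.W93.HD (oT oT_mem)
open Run7.h870.FS (ff ff_nonneg ff_le cnt cnt_le keys hh DD ff_keys box mem_box Nh_le)
open Pool.Agent.Y820.LT.RR (log_powD)
open scoped Classical

/-- the exponents -/
def K6 (M : ℕ) : Finset (((ℕ × ℕ) × (ℕ × ℕ)) × (ℕ × ℕ)) := A4 M ×ˢ (Icc 1 M ×ˢ Icc 1 M)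

/-- the form of the exponents -/
def n6 (k : ((ℕ × ℕ) × (ℕ × ℕ)) × (ℕ × ℕ)) : ℤ := hh k.1 + ((k.2.1 : ℤ) ^ 2 - (k.2.2 : ℤ) ^ 2)

/-- the difference -/
def D6 (k : ((ℕ × ℕ) × (ℕ × ℕ)) × (ℕ × ℕ)) : ℤ := DD k.1 + (2 ^ k.2.1 - 2 ^ k.2.2)

/-- the form of the rest -/
def gu (u : ℕ × ℕ) : ℤ := 4 * (u.1 : ℤ) ^ 2 - 4 * (u.2 : ℤ) ^ 2

/-- the number of the rest -/
noncomputable def W6 (M : ℕ) (k : ((ℕ × ℕ) × (ℕ × ℕ)) × (ℕ × ℕ)) : ℕ := ((Icc 1 M ×ˢ Icc 1 M).filter (fun u => n6 k + gu u = 0)).card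

theorem A4_sub (M : ℕ) : A4 M ⊆ keys M := by
  intro s hs
  obtain ⟨⟨x, y⟩, ⟨z, w⟩⟩ := s
  rw [mem_A4] at hs
  unfold keys
  simp only [mem_product, mem_range]
  omega

theorem cT_sum (M : ℕ) (T : Finset ℕ) : cT M T ≤ ∑ k ∈ (K6 M).filter (fun k => ∀ p ∈ T, (p : ℤ) ∣ D6 k), W6 M k := by
  have h1 : cT M T ≤ ((((K6 M).filter (fun k => ∀ p ∈ T, (p : ℤ) ∣ D6 k)) ×ˢ (Icc 1 M ×ˢ Icc 1 M)).filter (fun r => n6 r.1 + gu r.2 = 0)).card := by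
    unfold cT
    apply card_le_card_of_injOn (fun r : (ℕ × ℕ × ℕ × ℕ) × (ℕ × ℕ × ℕ × ℕ) =>
      ((((((r.1.1, r.1.2.1), (r.2.1, r.2.2.1)), (r.1.2.2.1, r.2.2.2.1))), (r.1.2.2.2, r.2.2.2.2)) : (((ℕ × ℕ) × (ℕ × ℕ)) × (ℕ × ℕ)) × (ℕ × ℕ)))
    · intro r hr
      obtain ⟨⟨x, y, z, w⟩, ⟨x', y', z', w'⟩⟩ := r
      rw [mem_coe, mem_filter] at hr
      obtain ⟨hr, hT⟩ := hr
      unfold PP3 at hr
      rw [mem_filter, mem_product] at hr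
      obtain ⟨⟨h1, h2⟩, h3⟩ := hr
      simp only at h1 h2 h3
      rw [mem_box] at h1 h2
      rw [mem_coe, mem_filter, mem_product, mem_filter]
      unfold K6
      simp only [mem_product, mem_Icc]
      rw [mem_A4]
      refine ⟨⟨⟨⟨⟨⟨h1.1, h1.2.1⟩, h2.1, h2.2.1⟩, h1.2.2.1, h2.2.2.1⟩, ?_⟩, h1.2.2.2, h2.2.2.2⟩, ?_⟩
      · intro p hp
        have h5 := hT p hp
        have e1 : D6 (((x, y), (x', y')), (z, z')) = D3 ((x, y, z, w), (x', y', z', w')) := by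
          unfold D6 DD D3 V3
          push_cast
          ring
        rw [e1]
        exact h5
      · unfold n6 hh gu
        unfold nn4 at h3
        simp only at h3 ⊢
        have h4 : (x : ℤ) ^ 2 + y ^ 2 + z ^ 2 + 4 * w ^ 2 = x' ^ 2 + y' ^ 2 + z' ^ 2 + 4 * w' ^ 2 := by exact_mod_cast h3
        linarith [h4]
    · intro r hr r1 hr1 hrr
      obtain ⟨⟨x, y, z, w⟩, ⟨x', y', z', w'⟩⟩ := r
      obtain ⟨⟨a, b, c, d⟩, ⟨a', b', c', d'⟩⟩ := r1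
      simp only [Prod.mk.injEq] at hrr ⊢
      tauto
  refine h1.trans (le_of_eq ?_)
  rw [card_filter, sum_product]
  refine sum_congr rfl fun k _ => ?_
  unfold W6
  rw [card_filter]

theorem cond_s (M : ℕ) (hM : 1 ≤ M) (T : Finset ℕ) (hT : ∀ p ∈ T, p.Prime ∧ 2 < p) (s : ℤ) :
    (((keys M).filter (fun k => ∀ p ∈ T, (p : ℤ) ∣ DD k + s)).card : ℝ) ≤ 324 * M ^ 4 * (1 / (oT 2 T : ℝ) + 1 / M) := by
  have hM1 : (1 : ℝ) ≤ M := by exact_mod_cast hM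
  have hM0 : (0 : ℝ) < M := by linarith
  have h1 := count4 (2 * M + 1) T hT s
  have h2 : (((keys M).filter (fun k => ∀ p ∈ T, (p : ℤ) ∣ DD k + s)).card : ℝ) ≤ ((2 * M + 1 : ℕ) : ℝ) ^ 3 * (4 * ((((2 * M + 1) / oT 2 T : ℕ) : ℝ) + 1)) := by
    have h3 : ((keys M).filter (fun k => ∀ p ∈ T, (p : ℤ) ∣ DD k + s)).card ≤ (2 * M + 1) ^ 3 * (4 * ((2 * M + 1) / oT 2 T + 1)) := h1
    exact_mod_cast h3
  have h4 : (((2 * M + 1) / oT 2 T : ℕ) : ℝ) ≤ ((2 * M + 1 : ℕ) : ℝ) / (oT 2 T : ℝ) := Nat.cast_div_le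
  have ho : (0 : ℝ) ≤ 1 / (oT 2 T : ℝ) := by positivity
  have h5 : ((2 * M + 1 : ℕ) : ℝ) ≤ 3 * M := by push_cast; linarith
  have h6 : ((2 * M + 1 : ℕ) : ℝ) / (oT 2 T : ℝ) ≤ 3 * M * (1 / (oT 2 T : ℝ)) := by
    rw [div_eq_mul_one_div]
    exact mul_le_mul_of_nonneg_right h5 ho
  have h7 : ((2 * M + 1 : ℕ) : ℝ) ^ 3 ≤ (3 * M) ^ 3 := pow_le_pow_left₀ (by positivity) h5 3
  refine h2.trans ?_
  calc ((2 * M + 1 : ℕ) : ℝ) ^ 3 * (4 * ((((2 * M + 1) / oT 2 T : ℕ) : ℝ) + 1)) ≤ (3 * M) ^ 3 * (4 * (3 * M * (1 / (oT 2 T : ℝ)) + 3)) := by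
        apply mul_le_mul h7 _ (by positivity) (by positivity)
        linarith [h4.trans h6]
    _ = 324 * M ^ 4 * (1 / (oT 2 T : ℝ) + 1 / M) := by
        field_simp
        ring

theorem cond6 (M : ℕ) (hM : 1 ≤ M) (T : Finset ℕ) (hT : ∀ p ∈ T, p.Prime ∧ 2 < p) :
    (((K6 M).filter (fun k => ∀ p ∈ T, (p : ℤ) ∣ D6 k)).card : ℝ) ≤ 324 * M ^ 6 * (1 / (oT 2 T : ℝ) + 1 / M) := by
  unfold K6
  rw [card_filter]
  push_cast
  rw [sum_product_right]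
  have h1 : ∀ l ∈ Icc 1 M ×ˢ Icc 1 M, ∑ s ∈ A4 M, (if ∀ p ∈ T, (p : ℤ) ∣ D6 (s, l) then (1 : ℝ) else 0) ≤ 324 * M ^ 4 * (1 / (oT 2 T : ℝ) + 1 / M) := by
    intro l _
    refine le_trans ?_ (cond_s M hM T hT (2 ^ l.1 - 2 ^ l.2))
    rw [card_filter]
    push_cast
    apply sum_le_sum_of_subset_of_nonneg (A4_sub M)
    intro k _ _
    split_ifs <;> norm_num
  refine (sum_le_sum h1).trans (le_of_eq ?_)
  rw [sum_const, card_product, Nat.card_Icc, nsmul_eq_mul, Nat.add_sub_cancel]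
  push_cast
  ring

theorem cnt_log (M : ℕ) (hM : 1 ≤ M) (h : ℤ) : (cnt (4 * M) h : ℝ) ≤ 1008 * M ^ 2 * (1 + Real.log (4 * M)) := by
  have h5 := cnt_le (4 * M) (by omega) h
  have h6 := ff_le (4 * M) h
  push_cast at h5 h6
  calc _ ≤ 63 * (4 * (M : ℝ)) ^ 2 * ff (4 * M) h := h5
    _ ≤ 63 * (4 * (M : ℝ)) ^ 2 * (1 + Real.log (4 * M)) := mul_le_mul_of_nonneg_left h6 (by positivity)
    _ = _ := by ring

theorem gu_pairs (M : ℕ) : (((Icc 1 M ×ˢ Icc 1 M) ×ˢ (Icc 1 M ×ˢ Icc 1 M)).filter (fun r : (ℕ × ℕ) × (ℕ × ℕ) => gu r.1 = gu r.2)).card ≤ cnt (4 * M) 0 := by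
  unfold cnt
  apply card_le_card_of_injOn (fun r : (ℕ × ℕ) × (ℕ × ℕ) =>
    ((((r.1.1 : ℤ) - r.1.2, (r.2.2 : ℤ) - r.2.1), ((r.1.1 : ℤ) + r.1.2, (r.2.2 : ℤ) + r.2.1)) : (ℤ × ℤ) × (ℤ × ℤ)))
  · intro r hr
    obtain ⟨⟨a, b⟩, ⟨c, d⟩⟩ := r
    rw [mem_coe, mem_filter] at hr
    simp only [mem_product, mem_Icc] at hr
    obtain ⟨h1, h2⟩ := hr
    rw [mem_coe, mem_filter]
    simp only [mem_product, mem_Icc]
    constructor
    · push_cast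
      omega
    · unfold gu at h2
      simp only at h2
      linarith
  · intro r hr r1 hr1 hrr
    obtain ⟨⟨a, b⟩, ⟨c, d⟩⟩ := r
    obtain ⟨⟨a', b'⟩, ⟨c', d'⟩⟩ := r1
    simp only [Prod.mk.injEq] at hrr ⊢
    omega

theorem n6_le (M : ℕ) (hM : 1 ≤ M) (h : ℤ) : (((K6 M).filter (fun k => n6 k + h = 0)).card : ℝ) ≤ 1008 * M ^ 4 * (1 + Real.log (4 * M)) := by
  unfold K6
  rw [card_filter]
  push_cast
  rw [sum_product_right]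
  have h1 : ∀ l ∈ Icc 1 M ×ˢ Icc 1 M, ∑ s ∈ A4 M, (if n6 (s, l) + h = 0 then (1 : ℝ) else 0) ≤ 1008 * M ^ 2 * (1 + Real.log (4 * M)) := by
    intro l _
    refine le_trans ?_ (cnt_log M hM (-h - ((l.1 : ℤ) ^ 2 - (l.2 : ℤ) ^ 2)))
    have h2 := Nh_le M (-h - ((l.1 : ℤ) ^ 2 - (l.2 : ℤ) ^ 2))
    have h3 : ((((keys M).filter (fun k => hh k = -h - ((l.1 : ℤ) ^ 2 - (l.2 : ℤ) ^ 2))).card : ℕ) : ℝ) ≤ (cnt (4 * M) (-h - ((l.1 : ℤ) ^ 2 - (l.2 : ℤ) ^ 2)) : ℝ) := by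
      exact_mod_cast h2
    refine le_trans ?_ h3
    rw [card_filter]
    push_cast
    have q1 : ∑ s ∈ A4 M, (if n6 (s, l) + h = 0 then (1 : ℝ) else 0) ≤ ∑ s ∈ A4 M, (if hh s = -h - ((l.1 : ℤ) ^ 2 - (l.2 : ℤ) ^ 2) then (1 : ℝ) else 0) := by
      apply sum_le_sum
      intro s _
      by_cases h4 : n6 (s, l) + h = 0
      · have h6 := h4
        unfold n6 at h6
        simp only at h6
        have h5 : hh s = -h - ((l.1 : ℤ) ^ 2 - (l.2 : ℤ) ^ 2) := by linarith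
        rw [if_pos h5]
        split_ifs <;> norm_num
      · rw [if_neg h4]
        split_ifs <;> norm_num
    have q2 : ∑ s ∈ A4 M, (if hh s = -h - ((l.1 : ℤ) ^ 2 - (l.2 : ℤ) ^ 2) then (1 : ℝ) else 0) ≤ ∑ s ∈ keys M, (if hh s = -h - ((l.1 : ℤ) ^ 2 - (l.2 : ℤ) ^ 2) then (1 : ℝ) else 0) := by
      apply sum_le_sum_of_subset_of_nonneg (A4_sub M)
      intro k _ _
      split_ifs <;> norm_num
    exact q1.trans q2
  refine (sum_le_sum h1).trans (le_of_eq ?_)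
  rw [sum_const, card_product, Nat.card_Icc, nsmul_eq_mul, Nat.add_sub_cancel]
  push_cast
  ring

theorem W6_sq (M : ℕ) (hM : 1 ≤ M) : ∑ k ∈ K6 M, (W6 M k : ℝ) ^ 2 ≤ (1008 * M ^ 2 * (1 + Real.log (4 * M))) * (1008 * M ^ 4 * (1 + Real.log (4 * M))) := by
  have hM1 : (1 : ℝ) ≤ M := by exact_mod_cast hM
  have hl : 0 ≤ Real.log (4 * (M : ℝ)) := Real.log_nonneg (by linarith)
  have e2 : ∀ k, (W6 M k : ℝ) ^ 2 = ∑ r ∈ (Icc 1 M ×ˢ Icc 1 M) ×ˢ (Icc 1 M ×ˢ Icc 1 M), (if n6 k + gu r.1 = 0 ∧ n6 k + gu r.2 = 0 then (1 : ℝ) else 0) := by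
    intro k
    unfold W6
    generalize Icc 1 M ×ˢ Icc 1 M = U
    rw [sq, card_filter]
    push_cast
    rw [sum_mul_sum, sum_product]
    refine sum_congr rfl fun t _ => sum_congr rfl fun t' _ => ?_
    by_cases a1 : n6 k + gu t = 0 <;> by_cases a2 : n6 k + gu t' = 0
    · rw [if_pos a1, if_pos a2, if_pos ⟨a1, a2⟩, one_mul]
    · rw [if_neg a2, mul_zero, if_neg (fun h => a2 h.2)]
    · rw [if_neg a1, zero_mul, if_neg (fun h => a1 h.1)]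
    · rw [if_neg a1, zero_mul, if_neg (fun h => a1 h.1)]
  rw [sum_congr rfl (fun k _ => e2 k), sum_comm]
  have h1 : ∀ r ∈ (Icc 1 M ×ˢ Icc 1 M) ×ˢ (Icc 1 M ×ˢ Icc 1 M), ∑ k ∈ K6 M, (if n6 k + gu r.1 = 0 ∧ n6 k + gu r.2 = 0 then (1 : ℝ) else 0) ≤
      (if gu r.1 = gu r.2 then 1008 * (M : ℝ) ^ 4 * (1 + Real.log (4 * M)) else 0) := by
    intro r _
    split_ifs with hg
    · refine le_trans ?_ (n6_le M hM (gu r.1))
      rw [card_filter]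
      push_cast
      apply sum_le_sum
      intro k _
      by_cases a1 : n6 k + gu r.1 = 0
      · rw [if_pos a1]
        split_ifs <;> norm_num
      · rw [if_neg a1, if_neg (fun h => a1 h.1)]
    · apply le_of_eq
      apply sum_eq_zero
      intro k _
      rw [if_neg]
      intro h
      exact hg (by linarith [h.1, h.2])
  refine (sum_le_sum h1).trans ?_
  rw [← sum_filter, sum_const, nsmul_eq_mul]
  apply mul_le_mul_of_nonneg_right _ (by positivity)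
  refine le_trans ?_ (cnt_log M hM 0)
  exact_mod_cast gu_pairs M

theorem big : ∃ C : ℝ, 0 < C ∧ ∀ M : ℕ, 1 ≤ M → ∀ T : Finset ℕ, (∀ p ∈ T, p.Prime ∧ 2 < p) →
    M ^ 2 < (2 * oT 2 T) ^ 3 → (cT M T : ℝ) ^ 4 ≤ C * (M ^ 24 * (1 / (oT 2 T : ℝ) + 1 / M)) := by
  obtain ⟨Q, hQ0, hQ⟩ := log_powD 8 4 (by norm_num)
  refine ⟨(324 * 1008 ^ 2) ^ 2 * (48 * Q) + 1, by positivity, fun M hM T hT heM => ?_⟩
  have hM1 : (1 : ℝ) ≤ M := by exact_mod_cast hM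
  have hM0 : (0 : ℝ) < M := by linarith
  obtain ⟨o, ho⟩ : ∃ o, o = oT 2 T := ⟨_, rfl⟩
  have hc6 := cond6 M hM T hT
  rw [← ho] at heM hc6 ⊢
  have ho1 : 1 ≤ o := by
    by_contra hcon
    have : o = 0 := by omega
    rw [this] at heM
    norm_num at heM
  have ho0 : (0 : ℝ) < o := by exact_mod_cast ho1
  have hsq : M ≤ (2 * o) ^ 2 := by
    by_contra hcon
    have h1 : (2 * o) ^ 2 < M := by omega
    have h2 : ((2 * o) ^ 2) ^ 2 < M ^ 2 := Nat.pow_lt_pow_left h1 (by norm_num)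
    have h3 : (2 * o) ^ 3 * 1 ≤ (2 * o) ^ 3 * (2 * o) := Nat.mul_le_mul_left _ (by omega)
    have h4 : (2 * o) ^ 3 * (2 * o) = ((2 * o) ^ 2) ^ 2 := by ring
    omega
  have hs1 : √(M : ℝ) ≤ 2 * o := by
    rw [Real.sqrt_le_left (by positivity)]
    exact_mod_cast hsq
  have hs2 : √(M : ℝ) ≤ M := by
    rw [Real.sqrt_le_left (by positivity)]
    nlinarith
  obtain ⟨L, hL⟩ : ∃ L : ℝ, L = 1 + Real.log (4 * M) := ⟨_, rfl⟩
  have hl : 0 ≤ Real.log (4 * (M : ℝ)) := Real.log_nonneg (by linarith)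
  have hL0 : 0 ≤ L := by rw [hL]; linarith
  have hL4 : L ^ 4 ≤ 16 * (Q * √(M : ℝ)) := by
    have h1 := hQ M hM
    have h2 : L ≤ 2 * Real.log ((8 * M * M + 3 : ℕ) : ℝ) := by
      have h3 : Real.log (4 * (M : ℝ)) ≤ Real.log ((8 * M * M + 3 : ℕ) : ℝ) := by
        apply Real.log_le_log (by positivity)
        push_cast
        nlinarith
      have h4 : 1 ≤ Real.log ((8 * M * M + 3 : ℕ) : ℝ) := by
        rw [Real.le_log_iff_exp_le (by positivity)]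
        have := Real.exp_one_lt_d9
        push_cast
        nlinarith
      rw [hL]
      linarith
    calc L ^ 4 ≤ (2 * Real.log ((8 * M * M + 3 : ℕ) : ℝ)) ^ 4 := pow_le_pow_left₀ hL0 h2 4
      _ = 16 * Real.log ((8 * M * M + 3 : ℕ) : ℝ) ^ 4 := by ring
      _ ≤ _ := by linarith
  obtain ⟨δ, hδ⟩ : ∃ δ : ℝ, δ = 1 / (o : ℝ) + 1 / M := ⟨_, rfl⟩
  have hδ0 : 0 ≤ δ := by rw [hδ]; positivity
  have hδs : δ * √(M : ℝ) ≤ 3 := by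
    have h1 : 1 / (o : ℝ) * √(M : ℝ) ≤ 2 := by
      rw [one_div, inv_mul_le_iff₀ ho0]
      linarith
    have h2 : 1 / (M : ℝ) * √(M : ℝ) ≤ 1 := by
      rw [one_div, inv_mul_le_iff₀ hM0]
      linarith
    rw [hδ, add_mul]
    linarith
  have hδL : δ * L ^ 4 ≤ 48 * Q := by
    calc δ * L ^ 4 ≤ δ * (16 * (Q * √(M : ℝ))) := mul_le_mul_of_nonneg_left hL4 hδ0
      _ = 16 * Q * (δ * √(M : ℝ)) := by ring
      _ ≤ 16 * Q * 3 := mul_le_mul_of_nonneg_left hδs (by positivity)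
      _ = _ := by ring
  rw [← hδ] at hc6 ⊢
  have hw := W6_sq M hM
  rw [← hL] at hw
  have h1 : (cT M T : ℝ) ≤ ∑ k ∈ (K6 M).filter (fun k => ∀ p ∈ T, (p : ℤ) ∣ D6 k), (W6 M k : ℝ) := by
    exact_mod_cast cT_sum M T
  have h2 := sq_sum_le_card_mul_sum_sq (s := (K6 M).filter (fun k => ∀ p ∈ T, (p : ℤ) ∣ D6 k)) (f := fun k => (W6 M k : ℝ))
  have h3 : ∑ k ∈ (K6 M).filter (fun k => ∀ p ∈ T, (p : ℤ) ∣ D6 k), (W6 M k : ℝ) ^ 2 ≤ 1008 ^ 2 * M ^ 6 * L ^ 2 := by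
    have h4 : ∑ k ∈ (K6 M).filter (fun k => ∀ p ∈ T, (p : ℤ) ∣ D6 k), (W6 M k : ℝ) ^ 2 ≤ ∑ k ∈ K6 M, (W6 M k : ℝ) ^ 2 :=
      sum_le_sum_of_subset_of_nonneg (filter_subset _ _) (fun k _ _ => by positivity)
    refine (h4.trans hw).trans (le_of_eq (by ring))
  have h4 : (cT M T : ℝ) ^ 2 ≤ 324 * 1008 ^ 2 * (M ^ 12 * (δ * L ^ 2)) := by
    calc (cT M T : ℝ) ^ 2 ≤ (∑ k ∈ (K6 M).filter (fun k => ∀ p ∈ T, (p : ℤ) ∣ D6 k), (W6 M k : ℝ)) ^ 2 := pow_le_pow_left₀ (Nat.cast_nonneg _) h1 2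
      _ ≤ _ := h2
      _ ≤ (324 * M ^ 6 * δ) * (1008 ^ 2 * M ^ 6 * L ^ 2) := mul_le_mul hc6 h3 (sum_nonneg fun k _ => by positivity) (by positivity)
      _ = _ := by ring
  calc (cT M T : ℝ) ^ 4 = ((cT M T : ℝ) ^ 2) ^ 2 := by ring
    _ ≤ (324 * 1008 ^ 2 * (M ^ 12 * (δ * L ^ 2))) ^ 2 := pow_le_pow_left₀ (by positivity) h4 2
    _ = (324 * 1008 ^ 2) ^ 2 * (M ^ 24 * δ) * (δ * L ^ 4) := by ring
    _ ≤ (324 * 1008 ^ 2) ^ 2 * (M ^ 24 * δ) * (48 * Q) := mul_le_mul_of_nonneg_left hδL (by positivity)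
    _ = (324 * 1008 ^ 2) ^ 2 * (48 * Q) * (M ^ 24 * δ) := by ring
    _ ≤ ((324 * 1008 ^ 2) ^ 2 * (48 * Q) + 1) * (M ^ 24 * δ) := by
        apply mul_le_mul_of_nonneg_right _ (by positivity)
        linarith

end Run7.h870.FT
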