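import Mathlib

/-!
# A Cauchy-Schwarz inequality for counting
-/

set_option autoImplicit false
set_option linter.all false

namespace Run7.h870.FT

open Finset
open scoped Classical

theorem cs_gen {α β γ : Type} (S : Finset α) (U : Finset β) (c : α → γ) (f : α → ℤ) (g : β → ℤ) (R : γ → β → Prop) (Cl : Finset γ)
    (hc : ∀ s ∈ S, c s ∈ Cl) :
    (((S ×ˢ U).filter (fun r => f r.1 + g r.2 = 0 ∧ R (c r.1) r.2)).card : ℝ) ^ 2 ≤
      (((S ×ˢ S).filter (fun r => c r.1 = c r.2 ∧ f r.1 = f r.2)).card : ℝ) *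
        ∑ r ∈ (U ×ˢ U).filter (fun r => g r.1 = g r.2), ((Cl.filter (fun ρ => R ρ r.1 ∧ R ρ r.2)).card : ℝ) := by
  obtain ⟨key, hkey⟩ : ∃ key : α → γ × ℤ, key = fun s => (c s, f s) := ⟨_, rfl⟩
  obtain ⟨NA, hNA⟩ : ∃ NA : γ × ℤ → ℝ, NA = fun κ => ((S.filter (fun s => key s = κ)).card : ℝ) := ⟨_, rfl⟩
  obtain ⟨NB, hNB⟩ : ∃ NB : γ × ℤ → ℝ, NB = fun κ => ((U.filter (fun t => κ.2 + g t = 0 ∧ R κ.1 t)).card : ℝ) := ⟨_, rfl⟩
  have h1 : (((S ×ˢ U).filter (fun r => f r.1 + g r.2 = 0 ∧ R (c r.1) r.2)).card : ℝ) = ∑ κ ∈ S.image key, NA κ * NB κ := by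
    have e1 := sum_comp (s := S) NB key
    have e2 : ∑ κ ∈ S.image key, NA κ * NB κ = ∑ s ∈ S, NB (key s) := by
      rw [e1]
      refine sum_congr rfl fun κ _ => ?_
      rw [nsmul_eq_mul, hNA]
    rw [e2, card_filter]
    push_cast
    rw [sum_product]
    refine sum_congr rfl fun s _ => ?_
    rw [hNB, hkey]
    simp only
    rw [card_filter]
    push_cast
    rfl
  have h2 : (((S ×ˢ S).filter (fun r => c r.1 = c r.2 ∧ f r.1 = f r.2)).card : ℝ) = ∑ κ ∈ S.image key, NA κ ^ 2 := by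
    have e1 := sum_comp (s := S) NA key
    have e2 : ∑ κ ∈ S.image key, NA κ ^ 2 = ∑ s ∈ S, NA (key s) := by
      rw [e1]
      refine sum_congr rfl fun κ _ => ?_
      rw [nsmul_eq_mul, sq, hNA]
    rw [e2, card_filter]
    push_cast
    rw [sum_product]
    refine sum_congr rfl fun s _ => ?_
    rw [hNA, hkey]
    simp only [Prod.mk.injEq]
    rw [card_filter]
    push_cast
    refine sum_congr rfl fun s' _ => ?_
    by_cases h : c s = c s' ∧ f s = f s'
    · rw [if_pos h, if_pos ⟨h.1.symm, h.2.symm⟩]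
    · rw [if_neg h, if_neg (fun h' => h ⟨h'.1.symm, h'.2.symm⟩)]
  have h3 : ∑ κ ∈ S.image key, NB κ ^ 2 ≤ ∑ r ∈ (U ×ˢ U).filter (fun r => g r.1 = g r.2), ((Cl.filter (fun ρ => R ρ r.1 ∧ R ρ r.2)).card : ℝ) := by
    have e1 : ∑ κ ∈ S.image key, NB κ ^ 2 ≤ ∑ κ ∈ Cl ×ˢ S.image f, NB κ ^ 2 := by
      apply sum_le_sum_of_subset_of_nonneg
      · intro κ hκ
        obtain ⟨s, hs, rfl⟩ := mem_image.1 hκ
        rw [hkey, mem_product]
        exact ⟨hc s hs, mem_image_of_mem f hs⟩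
      · intro κ _ _
        positivity
    refine e1.trans ?_
    have e2 : ∀ κ : γ × ℤ, NB κ ^ 2 = ∑ r ∈ U ×ˢ U, (if (κ.2 + g r.1 = 0 ∧ R κ.1 r.1) ∧ (κ.2 + g r.2 = 0 ∧ R κ.1 r.2) then (1 : ℝ) else 0) := by
      intro κ
      rw [hNB]
      simp only
      rw [sq, card_filter]
      push_cast
      rw [sum_mul_sum, sum_product]
      refine sum_congr rfl fun t _ => sum_congr rfl fun t' _ => ?_
      by_cases a1 : (κ.2 + g t = 0 ∧ R κ.1 t) <;> by_cases a2 : (κ.2 + g t' = 0 ∧ R κ.1 t')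
      · rw [if_pos a1, if_pos a2, if_pos ⟨a1, a2⟩, one_mul]
      · rw [if_neg a2, mul_zero, if_neg (fun h => a2 h.2)]
      · rw [if_neg a1, zero_mul, if_neg (fun h => a1 h.1)]
      · rw [if_neg a1, zero_mul, if_neg (fun h => a1 h.1)]
    rw [sum_congr rfl (fun κ _ => e2 κ), sum_comm, sum_filter]
    apply sum_le_sum
    intro r _
    rw [sum_product]
    split_ifs with hg
    · rw [card_filter]
      push_cast
      apply sum_le_sum
      intro ρ _
      split_ifs with hR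
      · have e3 : ∀ h ∈ S.image f, (if (h + g r.1 = 0 ∧ R ρ r.1) ∧ (h + g r.2 = 0 ∧ R ρ r.2) then (1 : ℝ) else 0) ≤ (if h = - g r.1 then (1 : ℝ) else 0) := by
          intro h _
          by_cases h1 : h = - g r.1
          · rw [if_pos h1]
            split_ifs <;> norm_num
          · rw [if_neg h1, if_neg (fun h' => h1 (by linarith [h'.1.1]))]
        refine (sum_le_sum e3).trans ?_
        rw [sum_ite_eq']
        split_ifs <;> norm_num
      · apply le_of_eq
        apply sum_eq_zero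
        intro h _
        rw [if_neg (fun h' => hR ⟨h'.1.2, h'.2.2⟩)]
    · apply le_of_eq
      apply sum_eq_zero
      intro ρ _
      apply sum_eq_zero
      intro h _
      rw [if_neg]
      intro h'
      exact hg (by linarith [h'.1.1, h'.2.1])
  rw [h1, h2]
  refine (sum_mul_sq_le_sq_mul_sq _ _ _).trans ?_
  exact mul_le_mul_of_nonneg_left h3 (sum_nonneg fun κ _ => by positivity)

end Run7.h870.FT
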