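import Pool.Agent.Run7.h870.FS.Mo

/-!
# `a₁b₁ + a₂b₂ = h` with short `a`, and the equation in eight variables
-/

set_option autoImplicit false
set_option linter.all false

namespace Run7.h870.FT

open Finset
open Run7.h870.FS (inn inn_le inn_swap ff ff_nonneg one_le_ff mult_le card_cls)
open scoped Classical

/-- the bound for `|γ| ≤ |α|` -/
noncomputable def b1 (A L : ℕ) (h : ℤ) (a c : ℤ) : ℝ :=
  if a ≠ 0 ∧ |c| ≤ |a| then ∑ g ∈ Icc 1 A, (if ((g : ℤ) ∣ a ∧ (g : ℤ) ∣ c) ∧ (g : ℤ) ∣ h then 3 * L * (g : ℝ) / |(a : ℝ)| else 0) else 0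

theorem b1_nonneg (A L : ℕ) (h : ℤ) (a c : ℤ) : 0 ≤ b1 A L h a c := by
  unfold b1
  split_ifs
  · exact sum_nonneg fun g _ => by split_ifs <;> positivity
  · exact le_rfl

theorem inn_le_b1 (A L : ℕ) (hAL : A ≤ L) (h a c : ℤ) (ha : a ≠ 0) (haA : |a| ≤ A) (hc : |c| ≤ |a|) :
    (inn L h (a, c) : ℝ) ≤ b1 A L h a c := by
  refine (inn_le L h a c ha (haA.trans (by exact_mod_cast hAL))).trans ?_
  unfold b1
  have hac : a ≠ 0 ∧ |c| ≤ |a| := ⟨ha, hc⟩
  rw [if_pos hac]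
  have hg0 : 0 < Int.gcd a c := Int.gcd_pos_of_ne_zero_left _ ha
  have hgL : Int.gcd a c ≤ A := by
    have h1 : ((Int.gcd a c : ℕ) : ℤ) ∣ |a| := (dvd_abs _ _).2 (Int.gcd_dvd_left a c)
    have h2 := Int.le_of_dvd (abs_pos.2 ha) h1
    exact_mod_cast h2.trans haA
  have h1 := single_le_sum (s := Icc 1 A) (f := fun g : ℕ => if ((g : ℤ) ∣ a ∧ (g : ℤ) ∣ c) ∧ (g : ℤ) ∣ h then 3 * L * (g : ℝ) / |(a : ℝ)| else 0)
    (fun g _ => by
      split_ifs <;> positivity) (mem_Icc.2 ⟨hg0, hgL⟩)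
  refine le_trans ?_ h1
  split_ifs with h2 h3
  · exact le_rfl
  · exact absurd ⟨⟨Int.gcd_dvd_left a c, Int.gcd_dvd_right a c⟩, h2⟩ h3
  · positivity
  · exact le_rfl

theorem sum_b1 (A L : ℕ) (hA : 1 ≤ A) (h : ℤ) :
    ∑ a ∈ Icc (-(A : ℤ)) A, ∑ c ∈ Icc (-(A : ℤ)) A, b1 A L h a c ≤ 27 * A * L * ff A h := by
  have hA : ∀ a ∈ Icc (-(A : ℤ)) A, ∑ c ∈ Icc (-(A : ℤ)) A, b1 A L h a c ≤
      ∑ g ∈ Icc 1 A, (if (g : ℤ) ∣ h then (if a ≠ 0 ∧ (g : ℤ) ∣ a then 9 * (L : ℝ) else 0) else 0) := by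
    intro a ha
    rw [mem_Icc] at ha
    have haL : |a| ≤ A := abs_le.2 ha
    by_cases ha0 : a = 0
    · have : ∑ c ∈ Icc (-(A : ℤ)) A, b1 A L h a c = 0 := by
        apply sum_eq_zero
        intro c _
        unfold b1
        rw [if_neg (fun h => h.1 ha0)]
      rw [this]
      exact sum_nonneg fun g _ => by split_ifs <;> positivity
    · have har : (0 : ℝ) < |(a : ℝ)| := abs_pos.2 (by exact_mod_cast ha0)
      have e1 : ∀ c, b1 A L h a c = ∑ g ∈ Icc 1 A, (if (g : ℤ) ∣ h then (if (g : ℤ) ∣ a then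
          (if |c| ≤ |a| ∧ (g : ℤ) ∣ c then 3 * L * (g : ℝ) / |(a : ℝ)| else 0) else 0) else 0) := by
        intro c
        unfold b1
        by_cases hc : |c| ≤ |a|
        · rw [if_pos ⟨ha0, hc⟩]
          refine sum_congr rfl fun g _ => ?_
          by_cases c1 : (g : ℤ) ∣ h <;> by_cases c2 : (g : ℤ) ∣ a <;> by_cases c3 : (g : ℤ) ∣ c <;> simp [c1, c2, c3, hc]
        · rw [if_neg (fun h => hc h.2)]
          symm
          apply sum_eq_zero
          intro g _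
          by_cases c1 : (g : ℤ) ∣ h <;> by_cases c2 : (g : ℤ) ∣ a <;> simp [c1, c2, hc]
      rw [sum_congr rfl (fun c _ => e1 c), sum_comm]
      apply sum_le_sum
      intro g hg
      rw [mem_Icc] at hg
      have hg0 : (0 : ℝ) < g := by exact_mod_cast hg.1
      by_cases c1 : (g : ℤ) ∣ h
      · by_cases c2 : (g : ℤ) ∣ a
        · simp only [c1, c2, ha0, ne_eq, not_false_eq_true, and_self, if_true]
          rw [← sum_filter, sum_const, nsmul_eq_mul]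
          have h5 : g ≤ a.natAbs := by
            have h6 : (g : ℤ) ∣ |a| := (dvd_abs _ _).2 c2
            have h7 := Int.le_of_dvd (abs_pos.2 ha0) h6
            rw [← Int.natCast_natAbs] at h7
            exact_mod_cast h7
          have h4 := mult_le a.natAbs g hg.1 h5 ((Icc (-(A : ℤ)) A).filter fun c => |c| ≤ |a| ∧ (g : ℤ) ∣ c) (by
            intro x hx
            rw [mem_filter] at hx
            rw [Int.natCast_natAbs]
            exact hx.2.1) (fun x hx => (mem_filter.1 hx).2.2)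
          have e2 : ((a.natAbs : ℕ) : ℝ) = |(a : ℝ)| := by rw [Nat.cast_natAbs, Int.cast_abs]
          rw [e2] at h4
          refine (mul_le_mul_of_nonneg_right h4 (by positivity)).trans (le_of_eq ?_)
          field_simp
          ring
        · simp [c1, c2]
      · simp [c1]
  refine (sum_le_sum hA).trans ?_
  rw [sum_comm]
  unfold ff
  rw [mul_sum]
  apply sum_le_sum
  intro g hg
  rw [mem_Icc] at hg
  have hg0 : (0 : ℝ) < g := by exact_mod_cast hg.1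
  by_cases c1 : (g : ℤ) ∣ h
  · simp only [c1, if_true]
    rw [← sum_filter, sum_const, nsmul_eq_mul]
    have h4 := mult_le A g hg.1 hg.2 ((Icc (-(A : ℤ)) A).filter fun a => a ≠ 0 ∧ (g : ℤ) ∣ a) (by
      intro x hx
      rw [mem_filter, mem_Icc] at hx
      exact abs_le.2 hx.1) (fun x hx => (mem_filter.1 hx).2.2)
    refine (mul_le_mul_of_nonneg_right h4 (by positivity)).trans (le_of_eq ?_)
    field_simp
    ring
  · simp [c1]

/-- the box -/
noncomputable def bx (A L : ℕ) : Finset ((ℤ × ℤ) × (ℤ × ℤ)) :=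
  (Icc (-(A : ℤ)) A ×ˢ Icc (-(A : ℤ)) A) ×ˢ (Icc (-(L : ℤ)) L ×ˢ Icc (-(L : ℤ)) L)

/-- the bilinear form -/
def fm (r : (ℤ × ℤ) × (ℤ × ℤ)) : ℤ := r.1.1 * r.2.1 + r.1.2 * r.2.2

/-- all solutions -/
noncomputable def cnt2 (A L : ℕ) (h : ℤ) : ℕ := ((bx A L).filter (fun r => fm r = h)).card

theorem cnt2_le (A L : ℕ) (hA : 1 ≤ A) (hAL : A ≤ L) (h : ℤ) :
    (cnt2 A L h : ℝ) ≤ 54 * A * L * ff A h + (if h = 0 then 9 * (L : ℝ) ^ 2 else 0) := by
  have hA1 : (1 : ℝ) ≤ A := by exact_mod_cast hA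
  have hL1 : (1 : ℝ) ≤ L := by exact_mod_cast hA.trans hAL
  have hf0 := ff_nonneg A h
  have e0 : cnt2 A L h = ∑ p ∈ Icc (-(A : ℤ)) A ×ˢ Icc (-(A : ℤ)) A, inn L h p := by
    unfold cnt2 bx fm inn
    rw [card_filter, sum_product]
    refine sum_congr rfl fun p _ => ?_
    rw [card_filter]
  rw [e0]
  push_cast
  have h1 : ∀ p ∈ Icc (-(A : ℤ)) A ×ˢ Icc (-(A : ℤ)) A, (inn L h p : ℝ) ≤ b1 A L h p.1 p.2 + b1 A L h p.2 p.1 +
      (if p = ((0 : ℤ), (0 : ℤ)) then (if h = 0 then 9 * (L : ℝ) ^ 2 else 0) else 0) := by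
    intro p hp
    obtain ⟨a, c⟩ := p
    rw [mem_product, mem_Icc, mem_Icc] at hp
    have haL : |a| ≤ A := abs_le.2 hp.1
    have hcL : |c| ≤ A := abs_le.2 hp.2
    simp only
    have p1 := b1_nonneg A L h a c
    have p2 := b1_nonneg A L h c a
    have p3 : (0 : ℝ) ≤ (if ((a, c) : ℤ × ℤ) = ((0 : ℤ), (0 : ℤ)) then (if h = 0 then 9 * (L : ℝ) ^ 2 else 0) else 0) := by
      split_ifs <;> positivity
    by_cases h0 : a = 0 ∧ c = 0
    · obtain ⟨rfl, rfl⟩ := h0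
      rw [if_pos rfl]
      by_cases hh : h = 0
      · rw [if_pos hh]
        have h2 : inn L h (0, 0) ≤ (Icc (-(L : ℤ)) L ×ˢ Icc (-(L : ℤ)) L).card := card_filter_le _ _
        rw [card_product, Int.card_Icc] at h2
        have h3 : ((L : ℤ) + 1 - -(L : ℤ)).toNat = 2 * L + 1 := by omega
        rw [h3] at h2
        have h4 : (inn L h (0, 0) : ℝ) ≤ (2 * L + 1) * (2 * L + 1) := by exact_mod_cast h2
        nlinarith
      · have h2 : inn L h (0, 0) = 0 := by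
          unfold inn
          rw [card_eq_zero, filter_eq_empty_iff]
          intro q _
          simp only [zero_mul, add_zero]
          exact fun h => hh h.symm
        rw [h2, if_neg hh, Nat.cast_zero]
        linarith
    · by_cases hac : |c| ≤ |a|
      · have ha0 : a ≠ 0 := by
          rintro rfl
          rw [abs_zero] at hac
          exact h0 ⟨rfl, abs_eq_zero.1 (le_antisymm hac (abs_nonneg c))⟩
        have := inn_le_b1 A L hAL h a c ha0 haL hac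
        linarith
      · have hca : |a| ≤ |c| := le_of_lt (not_le.1 hac)
        have hc0 : c ≠ 0 := by
          rintro rfl
          rw [abs_zero] at hac
          exact hac (abs_nonneg a)
        have := inn_le_b1 A L hAL h c a hc0 hcL hca
        rw [inn_swap] at this
        linarith
  refine (sum_le_sum h1).trans ?_
  rw [sum_add_distrib, sum_add_distrib]
  have h2 := sum_b1 A L hA h
  have h3 : ∑ p ∈ Icc (-(A : ℤ)) A ×ˢ Icc (-(A : ℤ)) A, b1 A L h p.1 p.2 ≤ 27 * A * L * ff A h := by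
    rw [sum_product]
    exact h2
  have h4 : ∑ p ∈ Icc (-(A : ℤ)) A ×ˢ Icc (-(A : ℤ)) A, b1 A L h p.2 p.1 ≤ 27 * A * L * ff A h := by
    rw [sum_product_right]
    exact h2
  have h5 : ∑ p ∈ Icc (-(A : ℤ)) A ×ˢ Icc (-(A : ℤ)) A, (if p = ((0 : ℤ), (0 : ℤ)) then (if h = 0 then 9 * (L : ℝ) ^ 2 else 0) else 0) ≤
      (if h = 0 then 9 * (L : ℝ) ^ 2 else 0) := by
    rw [sum_ite_eq']
    split_ifs <;> first | exact le_rfl | positivity
  linarith

theorem ff_neg (L : ℕ) (h : ℤ) : ff L (-h) = ff L h := by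
  unfold ff
  simp only [dvd_neg]

/-- the equation in eight variables -/
noncomputable def Z4 (A L : ℕ) : ℕ := ((bx A L ×ˢ bx A L).filter (fun r => fm r.1 + fm r.2 = 0)).card

theorem Z4_le : ∃ C : ℝ, 0 < C ∧ ∀ A L : ℕ, 1 ≤ A → A ≤ L → (Z4 A L : ℝ) ≤ C * ((A : ℝ) ^ 3 * L ^ 3 + L ^ 4) := by
  obtain ⟨C, hC, hm⟩ := Run7.h870.FS.ff_moment
  refine ⟨2 * 54 ^ 2 * C * 2 + 162, by positivity, fun A L hA hAL => ?_⟩
  have hA1 : (1 : ℝ) ≤ A := by exact_mod_cast hA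
  have hL1 : (1 : ℝ) ≤ L := by exact_mod_cast hA.trans hAL
  -- the range of the form
  have hr : ∀ r ∈ bx A L, fm r ∈ Icc (-((2 * A * L : ℕ) : ℤ)) ((2 * A * L : ℕ) : ℤ) := by
    intro r hr
    obtain ⟨⟨a, c⟩, ⟨b, d⟩⟩ := r
    unfold bx at hr
    simp only [mem_product, mem_Icc] at hr
    unfold fm
    simp only
    have h1 : |a| ≤ A := abs_le.2 hr.1.1
    have h2 : |c| ≤ A := abs_le.2 hr.1.2
    have h3 : |b| ≤ L := abs_le.2 hr.2.1
    have h4 : |d| ≤ L := abs_le.2 hr.2.2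
    rw [mem_Icc, ← abs_le]
    refine (abs_add_le _ _).trans ?_
    rw [abs_mul, abs_mul]
    have h5 := mul_le_mul h1 h3 (abs_nonneg b) (by positivity)
    have h6 := mul_le_mul h2 h4 (abs_nonneg d) (by positivity)
    push_cast
    linarith
  have e1 : (Z4 A L : ℝ) = ∑ h ∈ Icc (-((2 * A * L : ℕ) : ℤ)) ((2 * A * L : ℕ) : ℤ), (cnt2 A L h : ℝ) * cnt2 A L (-h) := by
    unfold Z4
    rw [card_filter]
    push_cast
    rw [sum_product, ← sum_fiberwise_of_maps_to hr]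
    refine sum_congr rfl fun h _ => ?_
    have e2 : ∀ p ∈ (bx A L).filter (fun p => fm p = h), ∑ q ∈ bx A L, (if fm p + fm q = 0 then (1 : ℝ) else 0) = cnt2 A L (-h) := by
      intro p hp
      rw [(mem_filter.1 hp).2]
      unfold cnt2
      rw [card_filter]
      push_cast
      refine sum_congr rfl fun q _ => ?_
      by_cases h1 : fm q = -h
      · rw [if_pos h1, if_pos (by linarith)]
      · rw [if_neg h1, if_neg (fun h2 => h1 (by linarith))]
    rw [sum_congr rfl e2, sum_const, nsmul_eq_mul]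
    rfl
  rw [e1]
  have h1 : ∀ h ∈ Icc (-((2 * A * L : ℕ) : ℤ)) ((2 * A * L : ℕ) : ℤ), (cnt2 A L h : ℝ) * cnt2 A L (-h) ≤
      2 * 54 ^ 2 * (A * L) ^ 2 * ff A h ^ 3 + (if h = 0 then 162 * (L : ℝ) ^ 4 else 0) := by
    intro h _
    have h2 := cnt2_le A L hA hAL h
    have h3 := cnt2_le A L hA hAL (-h)
    rw [ff_neg] at h3
    have e2 : (if -h = 0 then 9 * (L : ℝ) ^ 2 else 0) = (if h = 0 then 9 * (L : ℝ) ^ 2 else 0) := by
      by_cases h0 : h = 0
      · simp [h0]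
      · rw [if_neg h0, if_neg (by simpa using h0)]
    rw [e2] at h3
    have hf1 := one_le_ff A hA h
    have h4 : (cnt2 A L h : ℝ) * cnt2 A L (-h) ≤ (54 * A * L * ff A h + (if h = 0 then 9 * (L : ℝ) ^ 2 else 0)) ^ 2 := by
      rw [sq]
      exact mul_le_mul h2 h3 (Nat.cast_nonneg _) (by
        have : (0 : ℝ) ≤ (if h = 0 then 9 * (L : ℝ) ^ 2 else 0) := by split_ifs <;> positivity
        positivity)
    refine h4.trans ?_
    have h5 : ff A h ^ 2 ≤ ff A h ^ 3 := pow_le_pow_right₀ hf1 (by norm_num)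
    obtain ⟨u, hu⟩ : ∃ u, u = 54 * A * L * ff A h := ⟨_, rfl⟩
    obtain ⟨v, hv⟩ : ∃ v, v = (if h = 0 then 9 * (L : ℝ) ^ 2 else 0) := ⟨_, rfl⟩
    rw [← hu, ← hv]
    have h6 : (u + v) ^ 2 ≤ 2 * u ^ 2 + 2 * v ^ 2 := by nlinarith [sq_nonneg (u - v)]
    have h7 : 2 * v ^ 2 = (if h = 0 then 162 * (L : ℝ) ^ 4 else 0) := by
      rw [hv]
      split_ifs
      · ring
      · ring
    have h8 : 2 * u ^ 2 ≤ 2 * 54 ^ 2 * (A * L) ^ 2 * ff A h ^ 3 := by
      rw [hu]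
      calc 2 * (54 * (A : ℝ) * L * ff A h) ^ 2 = 2 * 54 ^ 2 * (A * L) ^ 2 * ff A h ^ 2 := by ring
        _ ≤ _ := mul_le_mul_of_nonneg_left h5 (by positivity)
    linarith
  refine (sum_le_sum h1).trans ?_
  rw [sum_add_distrib, ← mul_sum]
  have h2 := hm A (2 * A * L) hA (by nlinarith)
  have h3 : ∑ h ∈ Icc (-((2 * A * L : ℕ) : ℤ)) ((2 * A * L : ℕ) : ℤ), (if h = 0 then 162 * (L : ℝ) ^ 4 else 0) ≤ 162 * (L : ℝ) ^ 4 := by
    rw [sum_ite_eq']
    split_ifs <;> first | exact le_rfl | positivity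
  have h4 : 2 * 54 ^ 2 * ((A : ℝ) * L) ^ 2 * ∑ h ∈ Icc (-((2 * A * L : ℕ) : ℤ)) ((2 * A * L : ℕ) : ℤ), ff A h ^ 3 ≤
      2 * 54 ^ 2 * ((A : ℝ) * L) ^ 2 * (C * ((2 * A * L : ℕ) : ℝ)) := mul_le_mul_of_nonneg_left h2 (by positivity)
  have h5 : 2 * 54 ^ 2 * ((A : ℝ) * L) ^ 2 * (C * ((2 * A * L : ℕ) : ℝ)) = 2 * 54 ^ 2 * C * 2 * ((A : ℝ) ^ 3 * L ^ 3) := by
    push_cast
    ring
  have h6 : (0 : ℝ) ≤ (A : ℝ) ^ 3 * L ^ 3 := by positivity
  have h7 : (0 : ℝ) ≤ (L : ℝ) ^ 4 := by positivity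
  have h8 : (0 : ℝ) ≤ 2 * 54 ^ 2 * C * 2 * (L : ℝ) ^ 4 := by positivity
  nlinarith

end Run7.h870.FT
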