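import Pool.Agent.Run7.h870.FT.Cz
import Pool.Agent.Run7.h870.FS.Ky

/-!
# The two factors
-/

set_option autoImplicit false
set_option linter.all false

namespace Run7.h870.FT

open Finset
open Pool.Agent.W93.HD (oT oT_mem)
open Pool.Agent.TH894.SM (cnt_all)
open Run7.h870.FS (ff ff_nonneg cnt cnt_le keys hh DD ff_keys)
open scoped Classical

/-- four variables -/
def A4 (M : ℕ) : Finset ((ℕ × ℕ) × (ℕ × ℕ)) := (Icc 1 M ×ˢ Icc 1 M) ×ˢ (Icc 1 M ×ˢ Icc 1 M)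

theorem mem_A4 (M : ℕ) (x y z w : ℕ) : ((x, y), (z, w)) ∈ A4 M ↔ ((1 ≤ x ∧ x ≤ M) ∧ (1 ≤ y ∧ y ≤ M)) ∧ ((1 ≤ z ∧ z ≤ M) ∧ (1 ≤ w ∧ w ≤ M)) := by
  unfold A4
  simp only [mem_product, mem_Icc]

/-- the form of the second half -/
def hB (t : (ℕ × ℕ) × (ℕ × ℕ)) : ℤ := (t.1.1 : ℤ) ^ 2 + 4 * (t.1.2 : ℤ) ^ 2 - (t.2.1 : ℤ) ^ 2 - 4 * (t.2.2 : ℤ) ^ 2

/-- the powers of two of the second half -/
def dB (t : (ℕ × ℕ) × (ℕ × ℕ)) : ℤ := 2 ^ t.1.1 - 2 ^ t.2.1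

/-- the classes -/
def cl (e : ℕ) (s : (ℕ × ℕ) × (ℕ × ℕ)) : (ℕ × ℕ) × (ℕ × ℕ) := ((s.1.1 % e, s.1.2 % e), (s.2.1 % e, s.2.2 % e))

/-- the change of variables -/
def mpA (e : ℕ) (r : ((ℕ × ℕ) × (ℕ × ℕ)) × ((ℕ × ℕ) × (ℕ × ℕ))) : ((ℤ × ℤ) × (ℤ × ℤ)) × ((ℤ × ℤ) × (ℤ × ℤ)) :=
  (((((r.1.1.1 : ℤ) - r.2.1.1) / e, ((r.1.1.2 : ℤ) - r.2.1.2) / e), ((r.1.1.1 : ℤ) + r.2.1.1, (r.1.1.2 : ℤ) + r.2.1.2)),
   ((-(((r.1.2.1 : ℤ) - r.2.2.1) / e), -(((r.1.2.2 : ℤ) - r.2.2.2) / e)), ((r.1.2.1 : ℤ) + r.2.2.1, (r.1.2.2 : ℤ) + r.2.2.2)))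

theorem SA_le (M e : ℕ) (he : 1 ≤ e) :
    ((A4 M ×ˢ A4 M).filter (fun r => cl e r.1 = cl e r.2 ∧ hh r.1 = hh r.2)).card ≤ Z4 (M / e + 1) (2 * M) := by
  have he0 : (e : ℤ) ≠ 0 := by exact_mod_cast (by omega : e ≠ 0)
  have hdv : ∀ x x' : ℕ, x % e = x' % e → (e : ℤ) ∣ (x : ℤ) - x' := fun x x' h =>
    Nat.modEq_iff_dvd.1 (show x' ≡ x [MOD e] from h.symm)
  have hbd : ∀ (x x' : ℕ) (a : ℤ), x ≤ M → x' ≤ M → (x : ℤ) - x' = e * a → a.natAbs ≤ M / e := by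
    intro x x' a h1 h2 h3
    rw [Nat.le_div_iff_mul_le he]
    have h4 : a.natAbs * e = ((x : ℤ) - x').natAbs := by rw [h3, Int.natAbs_mul, Int.natAbs_natCast, mul_comm]
    rw [h4]
    omega
  unfold Z4
  apply card_le_card_of_injOn (mpA e)
  · intro r hr
    obtain ⟨⟨⟨x, y⟩, ⟨u, v⟩⟩, ⟨⟨x', y'⟩, ⟨u', v'⟩⟩⟩ := r
    rw [mem_coe, mem_filter, mem_product] at hr
    obtain ⟨⟨m1, m2⟩, hc, hq⟩ := hr
    simp only at m1 m2
    rw [mem_A4] at m1 m2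
    unfold cl at hc
    simp only [Prod.mk.injEq] at hc
    obtain ⟨a1, ha1⟩ := hdv _ _ hc.1.1
    obtain ⟨a2, ha2⟩ := hdv _ _ hc.1.2
    obtain ⟨a3, ha3⟩ := hdv _ _ hc.2.1
    obtain ⟨a4, ha4⟩ := hdv _ _ hc.2.2
    have b1 := hbd _ _ _ m1.1.1.2 m2.1.1.2 ha1
    have b2 := hbd _ _ _ m1.1.2.2 m2.1.2.2 ha2
    have b3 := hbd _ _ _ m1.2.1.2 m2.2.1.2 ha3
    have b4 := hbd _ _ _ m1.2.2.2 m2.2.2.2 ha4
    rw [mem_coe, mem_filter, mem_product]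
    unfold mpA
    simp only
    rw [ha1, ha2, ha3, ha4, Int.mul_ediv_cancel_left _ he0, Int.mul_ediv_cancel_left _ he0, Int.mul_ediv_cancel_left _ he0,
      Int.mul_ediv_cancel_left _ he0]
    constructor
    · unfold bx
      simp only [mem_product, mem_Icc]
      push_cast
      obtain ⟨Q, hQ⟩ : ∃ Q, Q = M / e := ⟨_, rfl⟩
      rw [← hQ] at b1 b2 b3 b4
      have hQ' : ((M : ℤ) / e) = Q := by rw [hQ]; push_cast; rfl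
      rw [hQ']
      omega
    · unfold fm
      simp only
      unfold hh at hq
      simp only at hq
      have h5 : (e : ℤ) * ((a1 * ((x : ℤ) + x') + a2 * ((y : ℤ) + y')) + (-a3 * ((u : ℤ) + u') + -a4 * ((v : ℤ) + v'))) = e * 0 := by
        have e1 : (e : ℤ) * ((a1 * ((x : ℤ) + x') + a2 * ((y : ℤ) + y')) + (-a3 * ((u : ℤ) + u') + -a4 * ((v : ℤ) + v'))) =
          (e * a1) * ((x : ℤ) + x') + (e * a2) * ((y : ℤ) + y') - (e * a3) * ((u : ℤ) + u') - (e * a4) * ((v : ℤ) + v') := by ring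
        rw [e1, ← ha1, ← ha2, ← ha3, ← ha4, mul_zero]
        linarith
      exact mul_left_cancel₀ he0 h5
  · intro r hr r1 hr1 hrr
    obtain ⟨⟨⟨x, y⟩, ⟨u, v⟩⟩, ⟨⟨x', y'⟩, ⟨u', v'⟩⟩⟩ := r
    obtain ⟨⟨⟨p, q⟩, ⟨c, d⟩⟩, ⟨⟨p', q'⟩, ⟨c', d'⟩⟩⟩ := r1
    rw [mem_coe, mem_filter] at hr hr1
    have hc := hr.2.1
    have hc1 := hr1.2.1
    unfold cl at hc hc1
    unfold mpA at hrr
    simp only [Prod.mk.injEq] at hc hc1 hrr ⊢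
    obtain ⟨a1, ha1⟩ := hdv _ _ hc.1.1
    obtain ⟨a2, ha2⟩ := hdv _ _ hc.1.2
    obtain ⟨a3, ha3⟩ := hdv _ _ hc.2.1
    obtain ⟨a4, ha4⟩ := hdv _ _ hc.2.2
    obtain ⟨c1, hc1'⟩ := hdv _ _ hc1.1.1
    obtain ⟨c2, hc2'⟩ := hdv _ _ hc1.1.2
    obtain ⟨c3, hc3'⟩ := hdv _ _ hc1.2.1
    obtain ⟨c4, hc4'⟩ := hdv _ _ hc1.2.2
    rw [ha1, ha2, ha3, ha4, hc1', hc2', hc3', hc4'] at hrr
    simp only [Int.mul_ediv_cancel_left _ he0, neg_inj] at hrr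
    obtain ⟨⟨⟨e1, e2⟩, e3, e4⟩, ⟨e5, e6⟩, e7, e8⟩ := hrr
    rw [e1] at ha1
    rw [e2] at ha2
    rw [e5] at ha3
    rw [e6] at ha4
    rw [← hc1'] at ha1
    rw [← hc2'] at ha2
    rw [← hc3'] at ha3
    rw [← hc4'] at ha4
    omega

theorem ff_four (L : ℕ) (m : ℤ) : ff L m ≤ ff L (4 * m) := by
  unfold ff
  apply sum_le_sum
  intro g _
  by_cases h : (g : ℤ) ∣ m
  · rw [if_pos h, if_pos (Dvd.dvd.mul_left h 4)]
  · rw [if_neg h]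
    split_ifs <;> positivity

/-- the exponents of a pair -/
def k2 (r : ((ℕ × ℕ) × (ℕ × ℕ)) × ((ℕ × ℕ) × (ℕ × ℕ))) : (ℕ × ℕ) × (ℕ × ℕ) := ((r.1.1.1, r.2.2.1), (r.1.2.1, r.2.1.1))

/-- the pairs with the same form -/
noncomputable def PB (M : ℕ) : Finset (((ℕ × ℕ) × (ℕ × ℕ)) × ((ℕ × ℕ) × (ℕ × ℕ))) := (A4 M ×ˢ A4 M).filter (fun r => hB r.1 = hB r.2)

theorem fibB (M : ℕ) (hM : 1 ≤ M) (k) : (((PB M).filter (fun r => k2 r = k)).card : ℝ) ≤ 1008 * M ^ 2 * ff (4 * M) (hh k) := by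
  have hf := ff_nonneg (4 * M) (hh k)
  have hq : ∀ r ∈ (PB M).filter (fun r => k2 r = k), hh k = 4 * (((r.1.2.2 : ℤ) - r.1.1.2) * ((r.1.2.2 : ℤ) + r.1.1.2) + ((r.2.1.2 : ℤ) - r.2.2.2) * ((r.2.1.2 : ℤ) + r.2.2.2)) := by
    intro r hr
    rw [mem_filter] at hr
    obtain ⟨h1, h2⟩ := hr
    unfold PB at h1
    rw [mem_filter] at h1
    have h3 := h1.2
    rw [← h2]
    unfold hh k2
    unfold hB at h3
    simp only
    linarith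
  rcases ((PB M).filter (fun r => k2 r = k)).eq_empty_or_nonempty with h0 | ⟨r0, h0⟩
  · rw [h0, card_empty, Nat.cast_zero]
    positivity
  · obtain ⟨m, hm⟩ : ∃ m : ℤ, hh k = 4 * m := ⟨_, hq r0 h0⟩
    have h1 : ((PB M).filter (fun r => k2 r = k)).card ≤ cnt (4 * M) m := by
      unfold cnt
      apply card_le_card_of_injOn (fun r : ((ℕ × ℕ) × (ℕ × ℕ)) × ((ℕ × ℕ) × (ℕ × ℕ)) =>
        ((((r.1.2.2 : ℤ) - r.1.1.2, (r.2.1.2 : ℤ) - r.2.2.2), ((r.1.2.2 : ℤ) + r.1.1.2, (r.2.1.2 : ℤ) + r.2.2.2)) : (ℤ × ℤ) × (ℤ × ℤ)))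
      · intro r hr
        have h2 := hq r (mem_coe.1 hr)
        obtain ⟨⟨⟨z, w⟩, ⟨z', w'⟩⟩, ⟨⟨z1, w1⟩, ⟨z1', w1'⟩⟩⟩ := r
        rw [mem_coe, mem_filter] at hr
        obtain ⟨h3, h4⟩ := hr
        unfold PB at h3
        rw [mem_filter, mem_product] at h3
        obtain ⟨⟨m1, m2⟩, _⟩ := h3
        simp only at m1 m2
        rw [mem_A4] at m1 m2
        rw [mem_coe, mem_filter]
        simp only [mem_product, mem_Icc]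
        constructor
        · push_cast
          omega
        · rw [hm] at h2
          simp only at h2
          linarith
      · intro r hr r1 hr1 hrr
        obtain ⟨⟨⟨z, w⟩, ⟨z', w'⟩⟩, ⟨⟨z1, w1⟩, ⟨z1', w1'⟩⟩⟩ := r
        obtain ⟨⟨⟨a, b⟩, ⟨a', b'⟩⟩, ⟨⟨a1, b1⟩, ⟨a1', b1'⟩⟩⟩ := r1
        rw [mem_coe, mem_filter] at hr hr1
        have h2 := hr.2
        rw [← hr1.2] at h2
        unfold k2 at h2
        simp only [Prod.mk.injEq] at h2 hrr ⊢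
        omega
    have h2 := cnt_le (4 * M) (by omega) m
    have h3 := ff_four (4 * M) m
    rw [← hm] at h3
    have h4 : (((PB M).filter (fun r => k2 r = k)).card : ℝ) ≤ cnt (4 * M) m := by exact_mod_cast h1
    push_cast at h2
    calc _ ≤ 63 * (4 * (M : ℝ)) ^ 2 * ff (4 * M) m := h4.trans h2
      _ ≤ 63 * (4 * (M : ℝ)) ^ 2 * ff (4 * M) (hh k) := mul_le_mul_of_nonneg_left h3 (by positivity)
      _ = _ := by ring

theorem DD_k2 (r) : DD (k2 r) = dB r.1 - dB r.2 := by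
  unfold DD k2 dB
  simp only
  ring

theorem VT_le (M : ℕ) (hM : 1 ≤ M) (T : Finset ℕ) :
    (((PB M).filter (fun r => ∀ p ∈ T, (p : ℤ) ∣ dB r.1 - dB r.2)).card : ℝ) ≤
      ∑ k ∈ (keys M).filter (fun k => ∀ p ∈ T, (p : ℤ) ∣ DD k), 1008 * M ^ 2 * ff (4 * M) (hh k) := by
  have hk : ∀ r ∈ PB M, k2 r ∈ keys M := by
    intro r hr
    obtain ⟨⟨⟨z, w⟩, ⟨z', w'⟩⟩, ⟨⟨z1, w1⟩, ⟨z1', w1'⟩⟩⟩ := r
    unfold PB at hr
    rw [mem_filter, mem_product] at hr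
    obtain ⟨⟨m1, m2⟩, _⟩ := hr
    simp only at m1 m2
    rw [mem_A4] at m1 m2
    unfold k2 keys
    simp only [mem_product, mem_range]
    omega
  have e1 : (((PB M).filter (fun r => ∀ p ∈ T, (p : ℤ) ∣ dB r.1 - dB r.2)).card : ℝ) =
      ∑ k ∈ (keys M).filter (fun k => ∀ p ∈ T, (p : ℤ) ∣ DD k), (((PB M).filter (fun r => k2 r = k)).card : ℝ) := by
    rw [card_filter]
    push_cast
    rw [← sum_fiberwise_of_maps_to (s := PB M) (t := keys M) (g := k2) hk (fun r => if ∀ p ∈ T, (p : ℤ) ∣ dB r.1 - dB r.2 then (1 : ℝ) else 0), sum_filter]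
    refine sum_congr rfl fun k _ => ?_
    rw [sum_congr rfl (g := fun _ => if ∀ p ∈ T, (p : ℤ) ∣ DD k then (1 : ℝ) else 0) (fun r hr => by
      rw [← (mem_filter.1 hr).2, DD_k2]), sum_const, nsmul_eq_mul]
    split_ifs
    · rw [mul_one]
    · rw [mul_zero]
  rw [e1]
  exact sum_le_sum fun k _ => fibB M hM k

/-- four exponents with a congruence condition -/
theorem count4 (K : ℕ) (T : Finset ℕ) (hT : ∀ p ∈ T, p.Prime ∧ 2 < p) (s : ℤ) :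
    (((range K ×ˢ range K) ×ˢ (range K ×ˢ range K)).filter (fun k => ∀ p ∈ T, (p : ℤ) ∣ DD k + s)).card ≤ K ^ 3 * (4 * (K / oT 2 T + 1)) := by
  rw [card_filter, sum_product_right]
  have h1 : ∀ l ∈ range K ×ˢ range K, ∑ k ∈ range K ×ˢ range K, (if ∀ p ∈ T, (p : ℤ) ∣ DD (k, l) + s then 1 else 0) ≤ K * (4 * (K / oT 2 T + 1)) := by
    intro l _
    rw [sum_product_right]
    have h2 : ∀ v ∈ range K, ∑ u ∈ range K, (if ∀ p ∈ T, (p : ℤ) ∣ DD ((u, v), l) + s then 1 else 0) ≤ 4 * (K / oT 2 T + 1) := by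
      intro v _
      have h3 := cnt_all 2 K le_rfl (fun _ => 1) (fun _ => ⟨one_ne_zero, by norm_num⟩) (2 ^ v - 2 ^ l.1 - 2 ^ l.2 + s) T hT (range K) (Subset.refl _)
      rw [card_filter] at h3
      refine le_trans (le_of_eq ?_) (h3.trans (le_of_eq (by ring)))
      refine sum_congr rfl fun u _ => ?_
      have e1 : (1 : ℤ) * ((2 : ℕ) : ℤ) ^ u + (2 ^ v - 2 ^ l.1 - 2 ^ l.2 + s) = DD ((u, v), l) + s := by
        unfold DD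
        push_cast
        ring
      have e2 : (∀ p ∈ T, (p : ℤ) ∣ 1 * ((2 : ℕ) : ℤ) ^ u + (2 ^ v - 2 ^ l.1 - 2 ^ l.2 + s)) ↔ (∀ p ∈ T, (p : ℤ) ∣ DD ((u, v), l) + s) := by rw [e1]
      by_cases hp : ∀ p ∈ T, (p : ℤ) ∣ DD ((u, v), l) + s
      · rw [if_pos hp, if_pos (e2.2 hp)]
      · rw [if_neg hp, if_neg (fun h => hp (e2.1 h))]
    refine (sum_le_sum h2).trans (le_of_eq ?_)
    rw [sum_const, card_range, smul_eq_mul]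
  refine (sum_le_sum h1).trans (le_of_eq ?_)
  rw [sum_const, card_product, card_range, smul_eq_mul]
  ring

end Run7.h870.FT
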