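import Pool.Agent.Run7.h870.FT.Pr1
import Pool.Agent.Run7.h870.FT.Cs

/-!
# The pairs whose difference is divisible by all primes of a set: small orders
-/

set_option autoImplicit false
set_option linter.all false

namespace Run7.h870.FT

open Finset
open Pool.Agent.W93.HD (oT oT_mem)
open Run7.h870.FS (ff ff_nonneg cnt cnt_le keys hh DD ff_keys box mem_box)
open scoped Classical

/-- the norm -/
def nn4 (q : ℕ × ℕ × ℕ × ℕ) : ℕ := q.1 ^ 2 + q.2.1 ^ 2 + q.2.2.1 ^ 2 + 4 * q.2.2.2 ^ 2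

/-- the sum of the powers of two -/
def V3 (q : ℕ × ℕ × ℕ × ℕ) : ℕ := 2 ^ q.1 + 2 ^ q.2.1 + 2 ^ q.2.2.1

/-- the pairs with the same norm -/
noncomputable def PP3 (M : ℕ) : Finset ((ℕ × ℕ × ℕ × ℕ) × (ℕ × ℕ × ℕ × ℕ)) :=
  (box M ×ˢ box M).filter (fun r => nn4 r.1 = nn4 r.2)

/-- the difference -/
def D3 (r : (ℕ × ℕ × ℕ × ℕ) × (ℕ × ℕ × ℕ × ℕ)) : ℤ := (V3 r.1 : ℤ) - V3 r.2

/-- the pairs with the divisibility -/
noncomputable def cT (M : ℕ) (T : Finset ℕ) : ℕ := ((PP3 M).filter (fun r => ∀ p ∈ T, (p : ℤ) ∣ D3 r)).card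

theorem pow_cl (p e : ℕ) (h : p ∣ 2 ^ e - 1) (x : ℕ) : (p : ℤ) ∣ 2 ^ x - 2 ^ (x % e) := by
  have h1 : (p : ℤ) ∣ 2 ^ e - 1 := by
    have h2 : ((p : ℕ) : ℤ) ∣ ((2 ^ e - 1 : ℕ) : ℤ) := by exact_mod_cast h
    rw [Nat.cast_sub Nat.one_le_two_pow] at h2
    push_cast at h2
    exact h2
  have h3 : (2 : ℤ) ^ e - 1 ∣ (2 ^ e) ^ (x / e) - 1 ^ (x / e) := sub_dvd_pow_sub_pow _ _ _
  rw [one_pow] at h3
  have h4 : (2 : ℤ) ^ x - 2 ^ (x % e) = 2 ^ (x % e) * ((2 ^ e) ^ (x / e) - 1) := by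
    rw [mul_sub, mul_one, ← pow_mul, ← pow_add, Nat.mod_add_div]
  rw [h4]
  exact Dvd.dvd.mul_left (h1.trans h3) _

/-- the divisibility of a class and a second half -/
def Rel (T : Finset ℕ) (ρ t : (ℕ × ℕ) × (ℕ × ℕ)) : Prop := ∀ p ∈ T, (p : ℤ) ∣ DD ρ + dB t

theorem cT_le (M e : ℕ) (T : Finset ℕ) (he : ∀ p ∈ T, p ∣ 2 ^ e - 1) :
    cT M T ≤ ((A4 M ×ˢ A4 M).filter (fun r => hh r.1 + hB r.2 = 0 ∧ Rel T (cl e r.1) r.2)).card := by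
  unfold cT
  apply card_le_card_of_injOn (fun r : (ℕ × ℕ × ℕ × ℕ) × (ℕ × ℕ × ℕ × ℕ) =>
    (((((r.1.1, r.1.2.1), (r.2.1, r.2.2.1))), (((r.1.2.2.1, r.1.2.2.2), (r.2.2.2.1, r.2.2.2.2)))) : ((ℕ × ℕ) × (ℕ × ℕ)) × ((ℕ × ℕ) × (ℕ × ℕ))))
  · intro r hr
    obtain ⟨⟨x, y, z, w⟩, ⟨x', y', z', w'⟩⟩ := r
    rw [mem_coe, mem_filter] at hr
    obtain ⟨hr, hT⟩ := hr
    unfold PP3 at hr
    rw [mem_filter, mem_product] at hr
    obtain ⟨⟨h1, h2⟩, h3⟩ := hr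
    simp only at h1 h2 h3
    rw [mem_box] at h1 h2
    rw [mem_coe, mem_filter, mem_product]
    simp only
    rw [mem_A4, mem_A4]
    refine ⟨⟨⟨⟨h1.1, h1.2.1⟩, h2.1, h2.2.1⟩, ⟨h1.2.2.1, h1.2.2.2⟩, h2.2.2.1, h2.2.2.2⟩, ?_, ?_⟩
    · unfold hh hB
      unfold nn4 at h3
      simp only at h3 ⊢
      have h4 : (x : ℤ) ^ 2 + y ^ 2 + z ^ 2 + 4 * w ^ 2 = x' ^ 2 + y' ^ 2 + z' ^ 2 + 4 * w' ^ 2 := by exact_mod_cast h3
      linarith [h4]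
    · intro p hp
      have h5 := hT p hp
      have q1 := pow_cl p e (he p hp) x
      have q2 := pow_cl p e (he p hp) y
      have q3 := pow_cl p e (he p hp) x'
      have q4 := pow_cl p e (he p hp) y'
      have e1 : DD (cl e ((x, y), (x', y'))) + dB ((z, w), (z', w')) =
          D3 ((x, y, z, w), (x', y', z', w')) - (2 ^ x - 2 ^ (x % e)) - (2 ^ y - 2 ^ (y % e)) + (2 ^ x' - 2 ^ (x' % e)) + (2 ^ y' - 2 ^ (y' % e)) := by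
        unfold DD cl dB D3 V3
        push_cast
        ring
      rw [e1]
      exact dvd_add (dvd_add (dvd_sub (dvd_sub h5 q1) q2) q3) q4
  · intro r hr r1 hr1 hrr
    obtain ⟨⟨x, y, z, w⟩, ⟨x', y', z', w'⟩⟩ := r
    obtain ⟨⟨a, b, c, d⟩, ⟨a', b', c', d'⟩⟩ := r1
    simp only [Prod.mk.injEq] at hrr ⊢
    tauto

theorem cond_le (M : ℕ) (hM : 1 ≤ M) (T : Finset ℕ) (hT : ∀ p ∈ T, p.Prime ∧ 2 < p) :
    (((keys M).filter (fun k => ∀ p ∈ T, (p : ℤ) ∣ DD k)).card : ℝ) ≤ 324 * M ^ 4 * (1 / (oT 2 T : ℝ) + 1 / M) := by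
  have hM1 : (1 : ℝ) ≤ M := by exact_mod_cast hM
  have hM0 : (0 : ℝ) < M := by linarith
  have h1 := count4 (2 * M + 1) T hT 0
  simp only [add_zero] at h1
  have h2 : (((keys M).filter (fun k => ∀ p ∈ T, (p : ℤ) ∣ DD k)).card : ℝ) ≤ ((2 * M + 1 : ℕ) : ℝ) ^ 3 * (4 * ((((2 * M + 1) / oT 2 T : ℕ) : ℝ) + 1)) := by
    have h3 : ((keys M).filter (fun k => ∀ p ∈ T, (p : ℤ) ∣ DD k)).card ≤ (2 * M + 1) ^ 3 * (4 * ((2 * M + 1) / oT 2 T + 1)) := h1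
    exact_mod_cast h3
  have h4 : (((2 * M + 1) / oT 2 T : ℕ) : ℝ) ≤ ((2 * M + 1 : ℕ) : ℝ) / (oT 2 T : ℝ) := Nat.cast_div_le
  have ho : (0 : ℝ) ≤ 1 / (oT 2 T : ℝ) := by positivity
  have h5 : ((2 * M + 1 : ℕ) : ℝ) ≤ 3 * M := by push_cast; linarith
  have h6 : ((2 * M + 1 : ℕ) : ℝ) / (oT 2 T : ℝ) ≤ 3 * M * (1 / (oT 2 T : ℝ)) := by
    rw [div_eq_mul_one_div]
    exact mul_le_mul_of_nonneg_right h5 ho
  have h7 : ((2 * M + 1 : ℕ) : ℝ) ^ 3 ≤ (3 * M) ^ 3 := pow_le_pow_left₀ (by positivity) h5 3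
  refine h2.trans ?_
  calc ((2 * M + 1 : ℕ) : ℝ) ^ 3 * (4 * ((((2 * M + 1) / oT 2 T : ℕ) : ℝ) + 1)) ≤ (3 * M) ^ 3 * (4 * (3 * M * (1 / (oT 2 T : ℝ)) + 3)) := by
        apply mul_le_mul h7 _ (by positivity) (by positivity)
        linarith [h4.trans h6]
    _ = 324 * M ^ 4 * (1 / (oT 2 T : ℝ) + 1 / M) := by
        field_simp
        ring

theorem small : ∃ C : ℝ, 0 < C ∧ ∀ M : ℕ, 1 ≤ M → ∀ T : Finset ℕ, (∀ p ∈ T, p.Prime ∧ 2 < p) → (∀ p ∈ T, p ∣ 2 ^ (2 * oT 2 T) - 1) → 1 ≤ oT 2 T →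
    (2 * oT 2 T) ^ 3 ≤ M ^ 2 → (cT M T : ℝ) ^ 4 ≤ C * (M ^ 24 * (1 / (oT 2 T : ℝ) + 1 / M)) := by
  obtain ⟨C1, hC1, h1⟩ := ff_keys
  obtain ⟨C2, hC2, h2⟩ := Z4_le
  refine ⟨(960 * C2) ^ 2 * (324 * (1008 ^ 2 * C1)), by positivity, fun M hM T hT hTd ho heM => ?_⟩
  have hM1 : (1 : ℝ) ≤ M := by exact_mod_cast hM
  have hM0 : (0 : ℝ) < M := by linarith
  obtain ⟨e, he⟩ : ∃ e, e = 2 * oT 2 T := ⟨_, rfl⟩
  rw [← he] at heM hTd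
  have he1 : 1 ≤ e := by omega
  have he1' : (1 : ℝ) ≤ e := by exact_mod_cast he1
  have heM1 : e ≤ M := by
    by_contra hcon
    have : M < e := by omega
    have h3 : M ^ 2 < e ^ 2 := Nat.pow_lt_pow_left this (by norm_num)
    have h4 : e ^ 2 * 1 ≤ e ^ 2 * e := Nat.mul_le_mul_left _ he1
    have h5 : e ^ 2 * e = e ^ 3 := by ring
    omega
  have heMr : (e : ℝ) ≤ M := by exact_mod_cast heM1
  have heM3 : (e : ℝ) ^ 3 ≤ (M : ℝ) ^ 2 := by exact_mod_cast heM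
  -- Cauchy-Schwarz
  have hcs := cs_gen (A4 M) (A4 M) (cl e) hh hB (Rel T) ((range e ×ˢ range e) ×ˢ (range e ×ˢ range e)) (by
    intro s _
    unfold cl
    simp only [mem_product, mem_range]
    exact ⟨⟨Nat.mod_lt _ he1, Nat.mod_lt _ he1⟩, Nat.mod_lt _ he1, Nat.mod_lt _ he1⟩)
  have hct : (cT M T : ℝ) ^ 2 ≤ _ := (pow_le_pow_left₀ (Nat.cast_nonneg _) (Nat.cast_le (α := ℝ).2 (cT_le M e T hTd)) 2).trans hcs
  -- the classes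
  have hρ : ∀ r ∈ (A4 M ×ˢ A4 M).filter (fun r => hB r.1 = hB r.2),
      ((((range e ×ˢ range e) ×ˢ (range e ×ˢ range e)).filter (fun ρ => Rel T ρ r.1 ∧ Rel T ρ r.2)).card : ℝ) ≤
        (if ∀ p ∈ T, (p : ℤ) ∣ dB r.1 - dB r.2 then 12 * (e : ℝ) ^ 3 else 0) := by
    intro r _
    split_ifs with hr
    · have h3 : (((range e ×ˢ range e) ×ˢ (range e ×ˢ range e)).filter (fun ρ => Rel T ρ r.1 ∧ Rel T ρ r.2)).card ≤
          (((range e ×ˢ range e) ×ˢ (range e ×ˢ range e)).filter (fun ρ => (∀ p ∈ T, (p : ℤ) ∣ DD ρ + dB r.1))).card := by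
        apply card_le_card
        intro ρ hρ
        rw [mem_filter] at hρ ⊢
        exact ⟨hρ.1, hρ.2.1⟩
      have h4 := h3.trans (count4 e T hT (dB r.1))
      have h5 : e / oT 2 T = 2 := by rw [he]; exact Nat.mul_div_cancel _ ho
      rw [h5] at h4
      have h6 : ((((range e ×ˢ range e) ×ˢ (range e ×ˢ range e)).filter (fun ρ => Rel T ρ r.1 ∧ Rel T ρ r.2)).card : ℝ) ≤ (e : ℝ) ^ 3 * (4 * (2 + 1)) := by
        exact_mod_cast h4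
      linarith
    · have h3 : (((range e ×ˢ range e) ×ˢ (range e ×ˢ range e)).filter (fun ρ => Rel T ρ r.1 ∧ Rel T ρ r.2)) = ∅ := by
        rw [filter_eq_empty_iff]
        intro ρ _ hh2
        apply hr
        intro p hp
        have h4 := dvd_sub (hh2.1 p hp) (hh2.2 p hp)
        have h5 : DD ρ + dB r.1 - (DD ρ + dB r.2) = dB r.1 - dB r.2 := by ring
        rwa [h5] at h4
      rw [h3, card_empty, Nat.cast_zero]
  obtain ⟨VT, hVT⟩ : ∃ VT : ℝ, VT = (((PB M).filter (fun r => ∀ p ∈ T, (p : ℤ) ∣ dB r.1 - dB r.2)).card : ℝ) := ⟨_, rfl⟩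
  have hVT0 : 0 ≤ VT := by rw [hVT]; positivity
  have hB1 : ∑ r ∈ (A4 M ×ˢ A4 M).filter (fun r => hB r.1 = hB r.2),
      ((((range e ×ˢ range e) ×ˢ (range e ×ˢ range e)).filter (fun ρ => Rel T ρ r.1 ∧ Rel T ρ r.2)).card : ℝ) ≤ VT * (12 * (e : ℝ) ^ 3) := by
    refine (sum_le_sum hρ).trans (le_of_eq ?_)
    rw [← sum_filter, sum_const, nsmul_eq_mul, hVT]
    unfold PB
    congr!
  -- the first factor
  obtain ⟨SA, hSA⟩ : ∃ SA : ℝ, SA = (((A4 M ×ˢ A4 M).filter (fun r => cl e r.1 = cl e r.2 ∧ hh r.1 = hh r.2)).card : ℝ) := ⟨_, rfl⟩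
  have hSA0 : 0 ≤ SA := by rw [hSA]; positivity
  have hSAe : SA * (e : ℝ) ^ 3 ≤ 80 * C2 * M ^ 6 := by
    have h3 : SA ≤ (Z4 (M / e + 1) (2 * M) : ℝ) := by
      rw [hSA]
      exact_mod_cast SA_le M e he1
    have hq : M / e ≤ M := Nat.div_le_self _ _
    have h4 := h2 (M / e + 1) (2 * M) (Nat.le_add_left 1 _) (by
      have := Nat.add_le_add hq hM
      linarith)
    have h5 : (((M / e + 1 : ℕ)) : ℝ) ≤ M / e + 1 := by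
      push_cast
      have : ((M / e : ℕ) : ℝ) ≤ (M : ℝ) / e := Nat.cast_div_le
      linarith
    have h6 : (((M / e + 1 : ℕ)) : ℝ) * e ≤ 2 * M := by
      have h7 : (((M / e + 1 : ℕ)) : ℝ) * e ≤ (M / e + 1) * e := mul_le_mul_of_nonneg_right h5 (by linarith)
      have h8 : ((M : ℝ) / e + 1) * e = M + e := by field_simp
      linarith
    have h7 : (((M / e + 1 : ℕ)) : ℝ) ^ 3 * (e : ℝ) ^ 3 ≤ 8 * M ^ 3 := by
      rw [← mul_pow]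
      refine (pow_le_pow_left₀ (by positivity) h6 3).trans (le_of_eq (by ring))
    calc SA * (e : ℝ) ^ 3 ≤ (C2 * ((((M / e + 1 : ℕ)) : ℝ) ^ 3 * ((2 * M : ℕ) : ℝ) ^ 3 + ((2 * M : ℕ) : ℝ) ^ 4)) * (e : ℝ) ^ 3 :=
          mul_le_mul_of_nonneg_right (h3.trans h4) (by positivity)
      _ = C2 * (8 * M ^ 3 * ((((M / e + 1 : ℕ)) : ℝ) ^ 3 * (e : ℝ) ^ 3) + 16 * M ^ 4 * (e : ℝ) ^ 3) := by push_cast; ring
      _ ≤ C2 * (8 * M ^ 3 * (8 * M ^ 3) + 16 * M ^ 4 * (M : ℝ) ^ 2) := by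
          apply mul_le_mul_of_nonneg_left _ hC2.le
          apply add_le_add
          · exact mul_le_mul_of_nonneg_left h7 (by positivity)
          · exact mul_le_mul_of_nonneg_left heM3 (by positivity)
      _ = 80 * C2 * M ^ 6 := by ring
  -- the second factor
  have hVT2 : VT ^ 2 ≤ (324 * M ^ 4 * (1 / (oT 2 T : ℝ) + 1 / M)) * (1008 ^ 2 * C1 * M ^ 8) := by
    have h3 := VT_le M hM T
    rw [← hVT] at h3
    have h4 := sq_sum_le_card_mul_sum_sq (s := (keys M).filter (fun k => ∀ p ∈ T, (p : ℤ) ∣ DD k)) (f := fun k => 1008 * (M : ℝ) ^ 2 * ff (4 * M) (hh k))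
    have h5 : ∑ k ∈ (keys M).filter (fun k => ∀ p ∈ T, (p : ℤ) ∣ DD k), (1008 * (M : ℝ) ^ 2 * ff (4 * M) (hh k)) ^ 2 ≤ 1008 ^ 2 * C1 * M ^ 8 := by
      have h6 : ∑ k ∈ (keys M).filter (fun k => ∀ p ∈ T, (p : ℤ) ∣ DD k), (1008 * (M : ℝ) ^ 2 * ff (4 * M) (hh k)) ^ 2 ≤
          ∑ k ∈ keys M, (1008 * (M : ℝ) ^ 2 * ff (4 * M) (hh k)) ^ 2 :=
        sum_le_sum_of_subset_of_nonneg (filter_subset _ _) (fun k _ _ => by positivity)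
      have h7 : ∑ k ∈ keys M, (1008 * (M : ℝ) ^ 2 * ff (4 * M) (hh k)) ^ 2 = 1008 ^ 2 * M ^ 4 * ∑ k ∈ keys M, ff (4 * M) (hh k) ^ 2 := by
        rw [mul_sum]
        refine sum_congr rfl fun k _ => ?_
        ring
      rw [h7] at h6
      refine h6.trans ?_
      calc 1008 ^ 2 * (M : ℝ) ^ 4 * ∑ k ∈ keys M, ff (4 * M) (hh k) ^ 2 ≤ 1008 ^ 2 * (M : ℝ) ^ 4 * (C1 * M ^ 4) :=
            mul_le_mul_of_nonneg_left (h1 M hM) (by positivity)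
        _ = _ := by ring
    have h6 := cond_le M hM T hT
    calc VT ^ 2 ≤ (∑ k ∈ (keys M).filter (fun k => ∀ p ∈ T, (p : ℤ) ∣ DD k), 1008 * (M : ℝ) ^ 2 * ff (4 * M) (hh k)) ^ 2 := pow_le_pow_left₀ hVT0 h3 2
      _ ≤ _ := h4
      _ ≤ _ := mul_le_mul h6 h5 (sum_nonneg fun k _ => by positivity) (by positivity)
  -- conclusion
  have h3 : (cT M T : ℝ) ^ 2 ≤ 960 * C2 * M ^ 6 * VT := by
    have h4 : (cT M T : ℝ) ^ 2 ≤ SA * (VT * (12 * (e : ℝ) ^ 3)) := by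
      refine le_trans ?_ (mul_le_mul_of_nonneg_left hB1 hSA0)
      refine hct.trans (le_of_eq ?_)
      rw [hSA]
      congr!
    calc (cT M T : ℝ) ^ 2 ≤ SA * (VT * (12 * (e : ℝ) ^ 3)) := h4
      _ = 12 * VT * (SA * (e : ℝ) ^ 3) := by ring
      _ ≤ 12 * VT * (80 * C2 * M ^ 6) := mul_le_mul_of_nonneg_left hSAe (by positivity)
      _ = _ := by ring
  calc (cT M T : ℝ) ^ 4 = ((cT M T : ℝ) ^ 2) ^ 2 := by ring
    _ ≤ (960 * C2 * M ^ 6 * VT) ^ 2 := pow_le_pow_left₀ (by positivity) h3 2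
    _ = (960 * C2 * M ^ 6) ^ 2 * VT ^ 2 := by ring
    _ ≤ (960 * C2 * M ^ 6) ^ 2 * ((324 * M ^ 4 * (1 / (oT 2 T : ℝ) + 1 / M)) * (1008 ^ 2 * C1 * M ^ 8)) := mul_le_mul_of_nonneg_left hVT2 (by positivity)
    _ = _ := by ring

end Run7.h870.FT
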